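import Pool.Agent.V1143.TD.Tate

/-!
# Abelian varieties with split totally multiplicative reduction

Let `K` be a finite extension of `ℚ_p`. By the theory of `p`-adic uniformization (Tate, Morikawa,
Mumford, Raynaud, Gerritzen) the abelian varieties `A` of dimension `g` over `K` with split totally
multiplicative reduction are the quotients `(𝔾_m)^g / Λ`, where `Λ ⊆ (K^×)^g` is a subgroup generated by
`g` elements (the periods) which has a Riemann form. For an algebraic closure `F` of `K` the group
`A(F)` is the quotient `(F^×)^g / Λ`, with the obvious action of the Galois group of `F` over `K`, and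
the endomorphisms of `A` over `K` are given by the endomorphisms of the torus `(𝔾_m)^g`, that is by the
integral matrices, which map `Λ` to itself.
-/

set_option autoImplicit false

namespace Pool.Agent.V1143.TD

open TensorProduct

universe u

/-- The endomorphism `y ↦ (∏ j, y j ^ α i j)_i` of the torus `(F^×)^g` given by the integral matrix
`α`. -/
def monomial {g : ℕ} {F : Type u} [Field F] (α : Matrix (Fin g) (Fin g) ℤ) :
    (Fin g → Fˣ) →* (Fin g → Fˣ) where
  toFun y i := ∏ j, y j ^ α i j
  map_one' := by
    funext i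
    simp
  map_mul' y z := by
    funext i
    simp [mul_zpow, Finset.prod_mul_distrib]

section

variable {g : ℕ} {F : Type u} [Field F]

lemma monomial_apply (α : Matrix (Fin g) (Fin g) ℤ) (y : Fin g → Fˣ) (i : Fin g) :
    monomial α y i = ∏ j, y j ^ α i j := rfl

lemma monomial_one (y : Fin g → Fˣ) : monomial 1 y = y := by
  funext i
  rw [monomial_apply, Finset.prod_eq_single i]
  · simp
  · intro j _ hj
    rw [Matrix.one_apply_ne hj.symm, zpow_zero]
  · intro h
    exact absurd (Finset.mem_univ i) h

lemma monomial_mul (α β : Matrix (Fin g) (Fin g) ℤ) (y : Fin g → Fˣ) :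
    monomial (α * β) y = monomial α (monomial β y) := by
  funext i
  rw [monomial_apply, monomial_apply]
  have h1 : ∀ j, monomial β y j ^ α i j = ∏ k, y k ^ (β j k * α i j) := by
    intro j
    rw [monomial_apply, ← Finset.prod_zpow]
    exact Finset.prod_congr rfl fun k _ => (zpow_mul _ _ _).symm
  rw [Finset.prod_congr rfl fun j _ => h1 j, Finset.prod_comm]
  refine Finset.prod_congr rfl fun k _ => ?_
  have : ∀ s : Finset (Fin g), y k ^ (∑ j ∈ s, α i j * β j k) =
      ∏ j ∈ s, y k ^ (β j k * α i j) := by
    intro s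
    induction s using Finset.induction_on with
    | empty => simp
    | insert a s ha ih =>
      rw [Finset.sum_insert ha, Finset.prod_insert ha, zpow_add, ih, mul_comm (α i a)]
  rw [Matrix.mul_apply]
  exact this _

lemma monomial_add (α β : Matrix (Fin g) (Fin g) ℤ) (y : Fin g → Fˣ) :
    monomial (α + β) y = monomial α y * monomial β y := by
  funext i
  simp [monomial_apply, Matrix.add_apply, zpow_add, Finset.prod_mul_distrib]

lemma monomial_zero (y : Fin g → Fˣ) : monomial 0 y = 1 := by
  funext i
  simp [monomial_apply]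

lemma monomial_neg (α : Matrix (Fin g) (Fin g) ℤ) (y : Fin g → Fˣ) :
    monomial (-α) y = (monomial α y)⁻¹ := by
  funext i
  simp [monomial_apply, Matrix.neg_apply, Finset.prod_inv_distrib]

end

/-- An abelian variety over `K` with split totally multiplicative reduction, given by its periods
and a polarization: the periods are the elements `Q i = (Q i j)_j` of the torus `(K^×)^g`; the
polarization is the homomorphism which maps the period `Q i` to the character
`y ↦ ∏ j, y j ^ P i j` of the torus. The Riemann conditions are the symmetry of the form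
`b(i, k) = ∏ j, Q k j ^ P i j` and `|b(λ, λ)| < 1` for all `λ = ∏ i, (Q i) ^ m i` with `m ≠ 0`. -/
structure TotDegAV (K : Type u) [NormedField K] where
  /-- the dimension -/
  g : ℕ
  /-- the periods -/
  Q : Fin g → Fin g → Kˣ
  /-- the polarization -/
  P : Matrix (Fin g) (Fin g) ℤ
  symm : ∀ i k, ∏ j, Q k j ^ P i j = ∏ j, Q i j ^ P k j
  pos : ∀ m : Fin g → ℤ, m ≠ 0 →
    ‖((∏ i, ∏ k, ∏ j, Q k j ^ (m i * m k * P i j) : Kˣ) : K)‖ < 1

namespace TotDegAV

variable {K : Type u} [NormedField K] (A : TotDegAV K)

/-- The lattice `Λ` generated by the periods, in the group `(F^×)^g` of the points of the torus with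
values in an extension field `F` of `K`. -/
def lattice (F : Type u) [Field F] [Algebra K F] : Subgroup (Fin A.g → Fˣ) :=
  Subgroup.closure (Set.range fun i => fun j => Units.map (algebraMap K F).toMonoidHom (A.Q i j))

/-- The group `A(F) = (F^×)^g / Λ` (written multiplicatively). -/
def MulPoints (F : Type u) [Field F] [Algebra K F] : Type u :=
  (Fin A.g → Fˣ) ⧸ A.lattice F

noncomputable instance (F : Type u) [Field F] [Algebra K F] : CommGroup (A.MulPoints F) :=
  QuotientGroup.Quotient.commGroup (A.lattice F)

/-- The group `A(F) = (F^×)^g / Λ` (written additively). -/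
def Points (F : Type u) [Field F] [Algebra K F] : Type u :=
  Additive (A.MulPoints F)

noncomputable instance (F : Type u) [Field F] [Algebra K F] : AddCommGroup (A.Points F) :=
  Additive.addCommGroup

/-- The point of `A` given by a point of the torus. -/
def pt (F : Type u) [Field F] [Algebra K F] (y : Fin A.g → Fˣ) : A.Points F :=
  Additive.ofMul (y : (Fin A.g → Fˣ) ⧸ A.lattice F)

/-- The endomorphism of `A(F)` induced by an endomorphism of the group `(F^×)^g` which maps the
lattice to itself. -/
noncomputable def mapMul (F : Type u) [Field F] [Algebra K F]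
    (f : (Fin A.g → Fˣ) →* (Fin A.g → Fˣ)) (hf : A.lattice F ≤ (A.lattice F).comap f) :
    A.MulPoints F →* A.MulPoints F :=
  QuotientGroup.map (A.lattice F) (A.lattice F) f hf

/-- The endomorphism of `A(F)` induced by an endomorphism of the group `(F^×)^g` which maps the
lattice to itself (written additively). -/
noncomputable def mapPoints (F : Type u) [Field F] [Algebra K F]
    (f : (Fin A.g → Fˣ) →* (Fin A.g → Fˣ)) (hf : A.lattice F ≤ (A.lattice F).comap f) :
    A.Points F →+ A.Points F :=
  MonoidHom.toAdditive (A.mapMul F f hf)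

/-- The integral matrix `α` gives an endomorphism of `A` over `K`: the endomorphism `monomial α` of the
torus maps the lattice to itself. -/
def IsEndo (α : Matrix (Fin A.g) (Fin A.g) ℤ) : Prop := ∀ y ∈ A.lattice K, monomial α y ∈ A.lattice K

lemma isEndo_one : A.IsEndo 1 := fun y hy => by rwa [monomial_one]

lemma isEndo_mul {α β : Matrix (Fin A.g) (Fin A.g) ℤ} (hα : A.IsEndo α) (hβ : A.IsEndo β) :
    A.IsEndo (α * β) := fun y hy => by
  rw [monomial_mul]
  exact hα _ (hβ _ hy)

lemma isEndo_zero : A.IsEndo 0 := fun y _ => by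
  rw [monomial_zero]
  exact one_mem _

lemma isEndo_add {α β : Matrix (Fin A.g) (Fin A.g) ℤ} (hα : A.IsEndo α) (hβ : A.IsEndo β) :
    A.IsEndo (α + β) := fun y hy => by
  rw [monomial_add]
  exact mul_mem (hα y hy) (hβ y hy)

lemma isEndo_neg {α : Matrix (Fin A.g) (Fin A.g) ℤ} (hα : A.IsEndo α) : A.IsEndo (-α) :=
    fun y hy => by
  rw [monomial_neg]
  exact inv_mem (hα y hy)

/-- The ring of endomorphisms of `A` over `K`: the integral matrices `α` such that the endomorphism
`monomial α` of the torus maps the lattice to itself. -/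
def endRing : Subring (Matrix (Fin A.g) (Fin A.g) ℤ) where
  carrier := {α | A.IsEndo α}
  one_mem' := A.isEndo_one
  mul_mem' := A.isEndo_mul
  zero_mem' := A.isEndo_zero
  add_mem' := A.isEndo_add
  neg_mem' := A.isEndo_neg

variable (F : Type u) [Field F] [Algebra K F]

lemma pt_surjective (x : A.Points F) : ∃ y, A.pt F y = x := by
  obtain ⟨y, hy⟩ := QuotientGroup.mk_surjective (Additive.toMul x)
  exact ⟨y, hy⟩

lemma pt_mul (y z : Fin A.g → Fˣ) : A.pt F (y * z) = A.pt F y + A.pt F z := rfl

lemma pt_one : A.pt F 1 = 0 := rfl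

lemma pt_eq_zero {y : Fin A.g → Fˣ} : A.pt F y = 0 ↔ y ∈ A.lattice F :=
  QuotientGroup.eq_one_iff y

lemma mapPoints_pt (f : (Fin A.g → Fˣ) →* (Fin A.g → Fˣ))
    (hf : A.lattice F ≤ (A.lattice F).comap f) (y : Fin A.g → Fˣ) :
    A.mapPoints F f hf (A.pt F y) = A.pt F (f y) := rfl

/-- The embedding of the points of the torus with values in `K` in the points with values in `F`. -/
noncomputable def incl : (Fin A.g → Kˣ) →* (Fin A.g → Fˣ) where
  toFun y j := Units.map (algebraMap K F).toMonoidHom (y j)
  map_one' := by
    funext j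
    exact map_one _
  map_mul' y z := by
    funext j
    exact map_mul _ _ _

lemma lattice_map : A.lattice F = (A.lattice K).map (A.incl F) := by
  unfold lattice
  rw [MonoidHom.map_closure, ← Set.range_comp]
  congr 1

lemma monomial_incl (α : Matrix (Fin A.g) (Fin A.g) ℤ) (y : Fin A.g → Kˣ) :
    monomial α (A.incl F y) = A.incl F (monomial α y) := by
  funext i
  change ∏ j, (A.incl F y) j ^ α i j = Units.map (algebraMap K F).toMonoidHom (monomial α y i)
  rw [monomial_apply, map_prod]
  exact Finset.prod_congr rfl fun j _ =>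
    (map_zpow (Units.map (algebraMap K F).toMonoidHom) (y j) (α i j)).symm

lemma lattice_le (α : A.endRing) : A.lattice F ≤ (A.lattice F).comap (monomial α.1) := by
  intro y hy
  rw [Subgroup.mem_comap]
  rw [lattice_map] at hy ⊢
  obtain ⟨z, hz, rfl⟩ := hy
  exact ⟨monomial α.1 z, α.2 z hz, (A.monomial_incl F α.1 z).symm⟩

/-- The action of an endomorphism of `A` on `A(F)`. -/
noncomputable def endo (α : A.endRing) : A.Points F →+ A.Points F :=
  A.mapPoints F (monomial α.1) (A.lattice_le F α)

/-- The action of an automorphism `σ` of `F` over `K` on the points of the torus: the action on the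
coordinates. -/
noncomputable def galTorus (σ : F ≃ₐ[K] F) : (Fin A.g → Fˣ) →* (Fin A.g → Fˣ) where
  toFun y j := Units.map (σ : F →* F) (y j)
  map_one' := by
    funext j
    exact map_one _
  map_mul' y z := by
    funext j
    exact map_mul _ _ _

variable {F} in
lemma galTorus_incl (σ : F ≃ₐ[K] F) (y : Fin A.g → Kˣ) :
    A.galTorus F σ (A.incl F y) = A.incl F y := by
  funext j
  ext
  exact σ.commutes _

variable {F} in
lemma lattice_le_gal (σ : F ≃ₐ[K] F) : A.lattice F ≤ (A.lattice F).comap (A.galTorus F σ) := by
  intro y hy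
  rw [Subgroup.mem_comap]
  rw [lattice_map] at hy ⊢
  obtain ⟨z, hz, rfl⟩ := hy
  exact ⟨z, hz, (A.galTorus_incl σ z).symm⟩

/-- The action of an automorphism `σ` of `F` over `K` on `A(F)`. -/
noncomputable def galois (σ : F ≃ₐ[K] F) : A.Points F →+ A.Points F :=
  A.mapPoints F (A.galTorus F σ) (A.lattice_le_gal σ)

lemma endo_pt (α : A.endRing) (y : Fin A.g → Fˣ) :
    A.endo F α (A.pt F y) = A.pt F (monomial α.1 y) := rfl

variable {F} in
lemma galois_pt (σ : F ≃ₐ[K] F) (y : Fin A.g → Fˣ) :
    A.galois F σ (A.pt F y) = A.pt F (A.galTorus F σ y) := rfl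

lemma hom_ext {f f' : A.Points F →+ A.Points F} (h : ∀ y, f (A.pt F y) = f' (A.pt F y)) :
    f = f' := by
  apply AddMonoidHom.ext
  intro x
  obtain ⟨y, rfl⟩ := A.pt_surjective F x
  exact h y

variable {F} in
lemma galois_endo (σ : F ≃ₐ[K] F) (α : A.endRing) :
    (A.galois F σ).comp (A.endo F α) = (A.endo F α).comp (A.galois F σ) := by
  apply A.hom_ext
  intro y
  rw [AddMonoidHom.comp_apply, AddMonoidHom.comp_apply, endo_pt, galois_pt, galois_pt, endo_pt]
  congr 1
  funext i
  change Units.map (σ : F →* F) (∏ j, y j ^ α.1 i j) = ∏ j, (Units.map (σ : F →* F) (y j)) ^ α.1 i j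
  rw [map_prod]
  exact Finset.prod_congr rfl fun j _ => map_zpow _ _ _

lemma endo_mul (α β : A.endRing) : A.endo F (α * β) = (A.endo F α).comp (A.endo F β) := by
  apply A.hom_ext
  intro y
  rw [AddMonoidHom.comp_apply, endo_pt, endo_pt, endo_pt]
  exact congrArg (A.pt F) (monomial_mul _ _ _)

lemma endo_one : A.endo F 1 = AddMonoidHom.id _ := by
  apply A.hom_ext
  intro y
  rw [endo_pt]
  exact congrArg (A.pt F) (monomial_one _)

lemma endo_add (α β : A.endRing) : A.endo F (α + β) = A.endo F α + A.endo F β := by
  apply A.hom_ext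
  intro y
  rw [AddMonoidHom.add_apply, endo_pt, endo_pt, endo_pt, ← pt_mul]
  exact congrArg (A.pt F) (monomial_add _ _ _)

lemma endo_zero : A.endo F 0 = 0 := by
  apply A.hom_ext
  intro y
  rw [endo_pt, AddMonoidHom.zero_apply, ← A.pt_one F]
  exact congrArg (A.pt F) (monomial_zero _)

/-- The type of the elements of `End(A)`. -/
def EndA : Type := A.endRing

noncomputable instance : Ring A.EndA := A.endRing.toRing

section

variable (p : ℕ) [Fact p.Prime]

/-- The rational Tate module `V_p(A)`, for the algebraic closure of `K`. -/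
def V : Type u := RatTate p (A.Points (AlgebraicClosure K))

noncomputable instance : AddCommGroup (A.V p) :=
  instAddCommGroupRatTate p (A.Points (AlgebraicClosure K))

noncomputable instance : Module ℚ_[p] (A.V p) :=
  instModulePadicRatTate p (A.Points (AlgebraicClosure K))

/-- The algebra of the `ℚ_p`-linear endomorphisms of `V_p(A)`. -/
def EndV : Type u := Module.End ℚ_[p] (A.V p)

noncomputable instance : Ring (A.EndV p) := Module.End.instRing

noncomputable instance : Algebra ℚ_[p] (A.EndV p) := Module.End.instAlgebra _ _ _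

/-- The action of the absolute Galois group of `K` on `V_p(A)`. -/
noncomputable def rho (σ : AlgebraicClosure K ≃ₐ[K] AlgebraicClosure K) : A.EndV p :=
  RatTate.map p (A.galois (AlgebraicClosure K) σ)

/-- The action of `End(A)` on `V_p(A)`. -/
noncomputable def endV (α : A.EndA) : A.EndV p :=
  RatTate.map p (A.endo (AlgebraicClosure K) α)

/-- The algebra `End_{G_K}(V_p(A))` of the `ℚ_p`-linear endomorphisms of `V_p(A)` which commute with
the action of the absolute Galois group `G_K` of `K`. -/
noncomputable def galoisEnd : Subalgebra ℚ_[p] (A.EndV p) :=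
  Subalgebra.centralizer ℚ_[p] (Set.range (A.rho p))

/-- The type of the elements of `End_{G_K}(V_p(A))`. -/
def GalEnd : Type u := A.galoisEnd p

noncomputable instance : Ring (A.GalEnd p) := (A.galoisEnd p).toRing

noncomputable instance : Algebra ℚ_[p] (A.GalEnd p) := (A.galoisEnd p).algebra

noncomputable instance : IsScalarTower ℤ ℚ_[p] (A.GalEnd p) where
  smul_assoc n c x := by
    rw [zsmul_eq_mul, Algebra.smul_def, Algebra.smul_def c x, map_mul, map_intCast, mul_assoc,
      zsmul_eq_mul]

lemma endV_mem (α : A.EndA) : A.endV p α ∈ A.galoisEnd p := by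
  rw [galoisEnd, Subalgebra.mem_centralizer_iff]
  rintro _ ⟨σ, rfl⟩
  have h1 := RatTate.map_comp (p := p) (A.galois (AlgebraicClosure K) σ)
    (A.endo (AlgebraicClosure K) α)
  have h2 := RatTate.map_comp (p := p) (A.endo (AlgebraicClosure K) α)
    (A.galois (AlgebraicClosure K) σ)
  rw [A.galois_endo σ α] at h1
  exact h1.symm.trans h2

/-- The action of `End(A)` on `V_p(A)`, with values in `End_{G_K}(V_p(A))`. -/
noncomputable def endGal (α : A.EndA) : A.GalEnd p := ⟨A.endV p α, A.endV_mem p α⟩

lemma endGal_one : A.endGal p 1 = 1 := by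
  apply Subtype.ext
  change RatTate.map p (A.endo (AlgebraicClosure K) 1) = 1
  rw [endo_one, RatTate.map_id]
  rfl

lemma endGal_mul (α β : A.EndA) : A.endGal p (α * β) = A.endGal p α * A.endGal p β := by
  apply Subtype.ext
  have h := RatTate.map_comp (p := p) (A.endo (AlgebraicClosure K) α)
    (A.endo (AlgebraicClosure K) β)
  rw [← endo_mul] at h
  exact h

lemma endGal_zero : A.endGal p 0 = 0 := by
  apply Subtype.ext
  have h := RatTate.map_zero (p := p) (M := A.Points (AlgebraicClosure K))
    (M' := A.Points (AlgebraicClosure K))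
  rw [← endo_zero] at h
  exact h

lemma endGal_add (α β : A.EndA) : A.endGal p (α + β) = A.endGal p α + A.endGal p β := by
  apply Subtype.ext
  have h := RatTate.map_add (p := p) (A.endo (AlgebraicClosure K) α)
    (A.endo (AlgebraicClosure K) β)
  rw [← endo_add] at h
  exact h

/-- The ring homomorphism `End(A) → End_{G_K}(V_p(A))`. -/
noncomputable def endToGaloisEnd : A.EndA →+* A.GalEnd p where
  toFun := A.endGal p
  map_one' := A.endGal_one p
  map_mul' := A.endGal_mul p
  map_zero' := A.endGal_zero p
  map_add' := A.endGal_add p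

/-- The same homomorphism, as a homomorphism of `ℤ`-algebras. -/
noncomputable def endToGaloisEndInt : A.EndA →ₐ[ℤ] A.GalEnd p :=
  (A.endToGaloisEnd p).toIntAlgHom

/-- The natural homomorphism of `ℚ_p`-algebras `End(A) ⊗ ℚ_p → End_{G_K}(V_p(A))`. -/
noncomputable def tateMap : ℚ_[p] ⊗[ℤ] A.EndA →ₐ[ℚ_[p]] A.GalEnd p :=
  Algebra.TensorProduct.lift (Algebra.ofId ℚ_[p] (A.GalEnd p)) (A.endToGaloisEndInt p)
    fun c α => Algebra.commutes c (A.endToGaloisEndInt p α)

lemma tateMap_tmul (c : ℚ_[p]) (α : A.EndA) :
    A.tateMap p (c ⊗ₜ α) = c • A.endToGaloisEnd p α := by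
  rw [tateMap, Algebra.TensorProduct.lift_tmul, Algebra.smul_def]
  rfl

end

end TotDegAV

end Pool.Agent.V1143.TD
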