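import Pool.Agent.V1143.TD.Phi

/-!
# The endomorphism of the Tate module given by `L`
-/

set_option autoImplicit false

namespace Pool.Agent.V1143.TD

open TensorProduct Matrix

variable {p : ℕ} [hp : Fact p.Prime] {g : ℕ} {L : Matrix (Fin g) (Fin g) ℤ_[p]} (hL : L.IsSymm)

lemma val_mul (y y' : Fin g → (QB p)ˣ) (m m' : Fin g → ℤ) (a : Matrix (Fin g) (Fin g) ℤ)
    (d : Matrix (Fin g) (Fin g) ℤ_[p]) : val (y * y') (m + m') a d = val y m a d * val y' m' a d := by
  unfold val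
  rw [map_mul, cv_add, Matrix.mulVec_add, inc_kv_add, mul_inv]
  exact mul_mul_mul_comm _ _ _ _

/-- `x' = L • x`, for `x` a `p ^ n`-torsion point. -/
def Rel (n : ℕ) (x x' : (av p L hL).Points (QB p)) : Prop :=
  ∃ (y : Fin g → (QB p)ˣ) (m : Fin g → ℤ) (a : Matrix (Fin g) (Fin g) ℤ)
    (d : Matrix (Fin g) (Fin g) ℤ_[p]), ptL hL y = x ∧ y ^ (p ^ n) = inc p (lam p L m) ∧
    L = cm p a + ((p ^ n : ℕ) : ℤ_[p]) • d ∧ ptL hL (val y m a d) = x'

variable {hL}

lemma Rel.unique {n : ℕ} {x x₁ x₂ : (av p L hL).Points (QB p)} (h₁ : Rel hL n x x₁)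
    (h₂ : Rel hL n x x₂) : x₁ = x₂ := by
  obtain ⟨y, m, a, d, hx, hy, h, rfl⟩ := h₁
  obtain ⟨y', m', a', d', hx', hy', h', rfl⟩ := h₂
  exact val_congr hL hy hy' h h' (hx.trans hx'.symm)

lemma exists_dec (L : Matrix (Fin g) (Fin g) ℤ_[p]) (n : ℕ) :
    ∃ (a : Matrix (Fin g) (Fin g) ℤ) (d : Matrix (Fin g) (Fin g) ℤ_[p]),
      L = cm p a + ((p ^ n : ℕ) : ℤ_[p]) • d := by
  have h : ∀ i j, ∃ e : ℤ_[p], L i j - (((L i j).appr n : ℤ) : ℤ_[p]) = (p : ℤ_[p]) ^ n * e := by
    intro i j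
    have := Tate.mem_appr (L i j) n
    rw [Ideal.mem_span_singleton] at this
    exact this
  choose e he using h
  refine ⟨Matrix.of fun i j => ((L i j).appr n : ℤ), Matrix.of e, ?_⟩
  ext i j
  have h1 := he i j
  rw [Matrix.add_apply, Matrix.smul_apply, smul_eq_mul, Matrix.of_apply]
  simp only [cm, Matrix.map_apply, Matrix.of_apply, Int.coe_castRingHom]
  push_cast at h1 ⊢
  rw [← h1]
  ring

lemma Rel.exists {n : ℕ} {x : (av p L hL).Points (QB p)} (hx : (p ^ n : ℕ) • x = 0) :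
    ∃ x', Rel hL n x x' := by
  obtain ⟨y, rfl⟩ := ptL_surjective hL x
  rw [← ptL_pow] at hx
  have h1 := ((av p L hL).pt_eq_zero (QB p)).1 hx
  obtain ⟨m, hm⟩ := (mem_lattice hL).1 h1
  obtain ⟨a, d, h⟩ := exists_dec L n
  exact ⟨_, y, m, a, d, rfl, hm, h, rfl⟩

lemma Rel.add {n : ℕ} {x₁ x₂ x₁' x₂' : (av p L hL).Points (QB p)} (h₁ : Rel hL n x₁ x₁')
    (h₂ : Rel hL n x₂ x₂') : Rel hL n (x₁ + x₂) (x₁' + x₂') := by
  obtain ⟨y₁, m₁, a, d, hx₁, hy₁, h, rfl⟩ := h₁
  obtain ⟨y₂, m₂, a₂, d₂, hx₂, hy₂, h', rfl⟩ := h₂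
  rw [← val_congr hL hy₂ hy₂ h h' rfl]
  refine ⟨y₁ * y₂, m₁ + m₂, a, d, ?_, ?_, h, ?_⟩
  · rw [ptL_mul, hx₁, hx₂]
  · rw [mul_pow, hy₁, hy₂, inc_lam_add]
  · rw [val_mul, ptL_mul]

lemma Rel.zero (n : ℕ) : Rel hL n 0 0 := by
  obtain ⟨x', h⟩ := Rel.exists (hL := hL) (n := n) (x := 0) (smul_zero _)
  have h2 := h.add h
  rw [add_zero] at h2
  have h3 := h2.unique h
  rw [add_eq_left] at h3
  rwa [h3] at h

lemma Rel.smul {n : ℕ} {x x' : (av p L hL).Points (QB p)} (h : Rel hL n x x') (c : ℕ) :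
    Rel hL n (c • x) (c • x') := by
  induction c with
  | zero =>
    rw [zero_smul, zero_smul]
    exact Rel.zero n
  | succ c ih =>
    rw [succ_nsmul, succ_nsmul]
    exact ih.add h

lemma Rel.torsion {n : ℕ} {x x' : (av p L hL).Points (QB p)} (h : Rel hL n x x') :
    (p ^ n : ℕ) • x' = 0 := by
  obtain ⟨y, m, a, d, hx, hy, h, rfl⟩ := h
  rw [← ptL_pow, val_pow hy h, ptL_lam]

/-- Compatibility of the choices for `n + 1` and `n`. -/
lemma Rel.step {n : ℕ} {x x' : (av p L hL).Points (QB p)} (h : Rel hL (n + 1) x x') :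
    Rel hL n (p • x) (p • x') := by
  obtain ⟨y, m, a, d, hx, hy, h, rfl⟩ := h
  refine ⟨y ^ p, m, a, (p : ℤ_[p]) • d, ?_, ?_, ?_, ?_⟩
  · rw [ptL_pow, hx]
  · rw [← pow_mul, ← pow_succ', hy]
  · rw [smul_smul]
    rw [h]
    congr 2
    push_cast
    ring
  · rw [← ptL_pow]
    congr 1
    unfold val
    rw [mul_pow, map_pow, inv_pow, ← map_pow (inc p), kv_pow]
    congr 4
    rw [Matrix.mul_smul, Matrix.smul_mul, ← smul_sub, Matrix.smul_mulVec]

/-- The action of the Galois group on the torus. -/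
noncomputable def gt (σ : QB p ≃ₐ[ℚ_[p]] QB p) : (Fin g → (QB p)ˣ) →* (Fin g → (QB p)ˣ) where
  toFun y j := Units.map (σ : QB p →* QB p) (y j)
  map_one' := by
    funext j
    exact map_one _
  map_mul' y z := by
    funext j
    exact map_mul _ _ _

lemma galois_ptL (σ : QB p ≃ₐ[ℚ_[p]] QB p) (y : Fin g → (QB p)ˣ) :
    (av p L hL).galois (QB p) σ (ptL hL y) = ptL hL (gt σ y) := rfl

lemma gt_inc (σ : QB p ≃ₐ[ℚ_[p]] QB p) (y : Fin g → ℚ_[p]ˣ) : gt σ (inc p y) = inc p y := by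
  funext j
  ext
  exact σ.commutes _

lemma gt_monomial (σ : QB p ≃ₐ[ℚ_[p]] QB p) (a : Matrix (Fin g) (Fin g) ℤ)
    (y : Fin g → (QB p)ˣ) : gt σ (monomial a y) = monomial a (gt σ y) := by
  funext i
  change Units.map (σ : QB p →* QB p) (∏ j, y j ^ a i j) =
    ∏ j, (Units.map (σ : QB p →* QB p) (y j)) ^ a i j
  rw [map_prod]
  exact Finset.prod_congr rfl fun j _ => map_zpow _ _ _

lemma Rel.gal {n : ℕ} {x x' : (av p L hL).Points (QB p)} (h : Rel hL n x x')
    (σ : QB p ≃ₐ[ℚ_[p]] QB p) :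
    Rel hL n ((av p L hL).galois (QB p) σ x) ((av p L hL).galois (QB p) σ x') := by
  obtain ⟨y, m, a, d, hx, hy, h, rfl⟩ := h
  refine ⟨gt σ y, m, a, d, ?_, ?_, h, ?_⟩
  · rw [← hx]
    rfl
  · rw [← map_pow, hy, gt_inc]
  · rw [galois_ptL]
    congr 1
    unfold val
    rw [map_mul, map_inv, gt_inc, gt_monomial]

variable (hL)

/-- The action of `L` on an element of the Tate module. -/
noncomputable def phiFun (x : Tate p ((av p L hL).Points (QB p))) :
    Tate p ((av p L hL).Points (QB p)) :=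
  Tate.mk (fun n => (Rel.exists (hL := hL) (Tate.pow_smul x n)).choose) (by
      have h := (Rel.exists (hL := hL) (Tate.pow_smul x 0)).choose_spec.torsion
      rwa [pow_zero, one_smul] at h) (by
      intro n
      have h := (Rel.exists (hL := hL) (Tate.pow_smul x (n + 1))).choose_spec.step
      rw [x.2.2] at h
      exact h.unique (Rel.exists (hL := hL) (Tate.pow_smul x n)).choose_spec)

/-- The endomorphism of the Tate module given by `L`. -/
noncomputable def tPhi : Tate p ((av p L hL).Points (QB p)) →ₗ[ℤ_[p]]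
    Tate p ((av p L hL).Points (QB p)) where
  toFun := phiFun hL
  map_add' x y := by
    ext n
    have h1 := (Rel.exists (hL := hL) (Tate.pow_smul x n)).choose_spec
    have h2 := (Rel.exists (hL := hL) (Tate.pow_smul y n)).choose_spec
    exact (Rel.exists (hL := hL) (Tate.pow_smul (x + y) n)).choose_spec.unique (h1.add h2)
  map_smul' z x := by
    ext n
    have h1 := (Rel.exists (hL := hL) (Tate.pow_smul x n)).choose_spec.smul (z.appr n)
    exact (Rel.exists (hL := hL) (Tate.pow_smul (z • x) n)).choose_spec.unique h1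

lemma tPhi_rel (x : Tate p ((av p L hL).Points (QB p))) (n : ℕ) :
    Rel hL n (x.1 n) ((tPhi hL x).1 n) :=
  (Rel.exists (hL := hL) (Tate.pow_smul x n)).choose_spec

lemma tPhi_gal (σ : QB p ≃ₐ[ℚ_[p]] QB p) :
    (tPhi hL).comp (Tate.map p ((av p L hL).galois (QB p) σ)) =
      (Tate.map p ((av p L hL).galois (QB p) σ)).comp (tPhi hL) := by
  ext x n
  have h1 := (tPhi_rel hL x n).gal σ
  exact (tPhi_rel hL (Tate.map p ((av p L hL).galois (QB p) σ) x) n).unique h1

/-- The endomorphism of the rational Tate module given by `L`. It commutes with the Galois group. -/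
noncomputable def vPhi : (av p L hL).GalEnd p :=
  ⟨(tPhi hL).baseChange ℚ_[p], by
    rw [TotDegAV.galoisEnd, Subalgebra.mem_centralizer_iff]
    rintro _ ⟨σ, rfl⟩
    have h1 := LinearMap.baseChange_comp (A := ℚ_[p]) (tPhi hL)
      (Tate.map p ((av p L hL).galois (QB p) σ))
    have h2 := LinearMap.baseChange_comp (A := ℚ_[p])
      (Tate.map p ((av p L hL).galois (QB p) σ)) (tPhi hL)
    rw [tPhi_gal] at h2
    exact h1.symm.trans h2⟩

/-- The element `1 ⊗ x` of the rational Tate module. -/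
noncomputable def oneT (x : Tate p ((av p L hL).Points (QB p))) : (av p L hL).V p :=
  (1 : ℚ_[p]) ⊗ₜ[ℤ_[p]] x

/-- The action of an element of `End_{G_K}(V_p(A))` on `V_p(A)`. -/
noncomputable def app (φ : (av p L hL).GalEnd p) : Module.End ℚ_[p] ((av p L hL).V p) := φ.1

lemma vPhi_one (x : Tate p ((av p L hL).Points (QB p))) :
    app hL (vPhi hL) (oneT hL x) = oneT hL (tPhi hL x) := rfl

lemma app_algebraMap (c : ℚ_[p]) (v : (av p L hL).V p) :
    app hL (algebraMap ℚ_[p] ((av p L hL).GalEnd p) c) v = c • v := rfl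

/-- The endomorphisms of the abelian variety commute with `L`. -/
lemma comm_of_mem {α : Matrix (Fin g) (Fin g) ℤ} (h : α ∈ (av p L hL).endRing) :
    cm p α * L = L * cm p α := by
  have h1 : ∀ m : Fin g → ℤ, (cm p α * L - L * cm p α) *ᵥ cv p m = 0 := by
    intro m
    have h2 := h (lam p L m) ((mem_lattice_base hL).2 ⟨m, rfl⟩)
    obtain ⟨m', hm'⟩ := (mem_lattice_base hL).1 h2
    rw [monomial_lam] at hm'
    change lam p L (α *ᵥ m) * kv p ((cm p α * L - L * cm p α) *ᵥ cv p m) = lam p L m' at hm'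
    have h3 : lam p L (α *ᵥ m - m') * kv p ((cm p α * L - L * cm p α) *ᵥ cv p m) = 1 := by
      rw [sub_eq_add_neg, lam_add, lam_neg, mul_right_comm]
      have h7 := congrArg (fun u => u * (lam p L m')⁻¹) hm'
      simp only [mul_inv_cancel] at h7
      exact h7
    have h4 : α *ᵥ m - m' = 0 := by
      funext i
      have h5 := congrFun h3 i
      have h6 : pU p ^ (α *ᵥ m - m') i * kap p ((L *ᵥ cv p (α *ᵥ m - m')) i +
          ((cm p α * L - L * cm p α) *ᵥ cv p m) i) = 1 := by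
        rw [kap_add, ← mul_assoc]
        exact h5
      exact (eq_zero_of_mul p h6).1
    rw [h4, lam_zero, one_mul] at h3
    funext i
    exact kap_eq_one p (congrFun h3 i)
  have h2 : cm p α * L - L * cm p α = 0 := by
    ext i j
    have h3 := congrFun (h1 (Pi.single j 1)) i
    have : cv p (Pi.single j 1 : Fin g → ℤ) = Pi.single j 1 := by
      funext k
      simp only [cv]
      by_cases hk : k = j
      · subst hk
        simp
      · simp [Pi.single_eq_of_ne hk]
    rw [this, Matrix.mulVec_single_one] at h3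
    exact h3
  exact sub_eq_zero.1 h2

end Pool.Agent.V1143.TD
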