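import Pool.Agent.V1143.TD.Endo

/-!
# An abelian surface with `End(A) = ℤ` whose Tate module has more endomorphisms
-/

set_option autoImplicit false

namespace Pool.Agent.V1143.TD

open TensorProduct Matrix Cardinal

variable (p : ℕ) [hp : Fact p.Prime]

/-- There is an irrational `p`-adic integer. -/
lemma exists_irrational : ∃ z : ℤ_[p], ∀ b n : ℤ, (b : ℤ_[p]) * z = n → b = 0 := by
  have h1 : ∃ q : ℚ_[p], q ∉ Set.range (Rat.cast : ℚ → ℚ_[p]) := by
    by_contra h
    push Not at h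
    have h2 : (Set.univ : Set ℚ_[p]).Countable := by
      have : (Set.univ : Set ℚ_[p]) = Set.range (Rat.cast : ℚ → ℚ_[p]) := by
        ext q
        simp only [Set.mem_univ, true_iff]
        exact h q
      rw [this]
      exact Set.countable_range _
    have h3 : #ℚ_[p] ≤ ℵ₀ := by
      rw [← Cardinal.mk_univ]
      exact h2.le_aleph0
    exact absurd ((continuum_le_cardinal_of_nontriviallyNormedField ℚ_[p]).trans h3)
      (not_le.2 aleph0_lt_continuum)
  obtain ⟨q, hq⟩ := h1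
  have hp0 : (p : ℚ_[p]) ≠ 0 := by exact_mod_cast hp.out.ne_zero
  obtain ⟨k, hk⟩ : ∃ k : ℕ, ‖q * (p : ℚ_[p]) ^ k‖ ≤ 1 := by
    have hp1 : (1 : ℝ) < p := by exact_mod_cast hp.out.one_lt
    obtain ⟨k, hk⟩ := pow_unbounded_of_one_lt ‖q‖ hp1
    refine ⟨k, ?_⟩
    rw [norm_mul, norm_pow, Padic.norm_p, inv_pow, ← div_eq_mul_inv, div_le_one (by positivity)]
    exact hk.le
  refine ⟨⟨q * (p : ℚ_[p]) ^ k, hk⟩, fun b n h => ?_⟩
  by_contra hb
  apply hq
  have h2 : (b : ℚ_[p]) * (q * (p : ℚ_[p]) ^ k) = n := by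
    have := congrArg (fun w : ℤ_[p] => (w : ℚ_[p])) h
    simpa using this
  have hb' : (b : ℚ_[p]) ≠ 0 := by exact_mod_cast hb
  refine ⟨(n : ℚ) / (b * p ^ k), ?_⟩
  push_cast
  rw [div_eq_iff (mul_ne_zero hb' (pow_ne_zero _ hp0)), ← h2]
  ring

/-- The matrix `(0, 1; 1, z)`. -/
noncomputable def matL (z : ℤ_[p]) : Matrix (Fin 2) (Fin 2) ℤ_[p] := !![0, 1; 1, z]

lemma matL_symm (z : ℤ_[p]) : (matL p z).IsSymm := by
  ext i j
  fin_cases i <;> fin_cases j <;> rfl

/-- A compatible system of roots of unity of order a power of `p`, beginning with one of order `p`. -/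
noncomputable def zetaSeq : ℕ → (QB p)ˣ
  | 0 => ((HasEnoughRootsOfUnity.exists_primitiveRoot (QB p) p).choose_spec.isUnit
      hp.out.ne_zero).unit
  | n + 1 => Units.mk0 ((IsAlgClosed.exists_pow_nat_eq (zetaSeq n : QB p) hp.out.pos).choose)
      (by
        intro h
        have h1 := (IsAlgClosed.exists_pow_nat_eq (zetaSeq n : QB p) hp.out.pos).choose_spec
        rw [h, zero_pow hp.out.ne_zero] at h1
        exact (zetaSeq n).ne_zero h1.symm)

lemma zetaSeq_succ (n : ℕ) : zetaSeq p (n + 1) ^ p = zetaSeq p n := by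
  ext
  exact (IsAlgClosed.exists_pow_nat_eq (zetaSeq p n : QB p) hp.out.pos).choose_spec

lemma zetaSeq_zero_pow : zetaSeq p 0 ^ p = 1 := by
  ext
  exact (HasEnoughRootsOfUnity.exists_primitiveRoot (QB p) p).choose_spec.pow_eq_one

lemma zetaSeq_zero_ne : zetaSeq p 0 ≠ 1 := by
  intro h
  have h1 : (HasEnoughRootsOfUnity.exists_primitiveRoot (QB p) p).choose = 1 :=
    congrArg Units.val h
  exact (HasEnoughRootsOfUnity.exists_primitiveRoot (QB p) p).choose_spec.ne_one hp.out.one_lt h1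

/-- The roots of unity of order `p ^ n`. -/
noncomputable def zeta : ℕ → (QB p)ˣ
  | 0 => 1
  | n + 1 => zetaSeq p n

lemma zeta_succ (n : ℕ) : zeta p (n + 1) ^ p = zeta p n := by
  cases n with
  | zero => exact zetaSeq_zero_pow p
  | succ n => exact zetaSeq_succ p n

lemma zeta_pow (n k : ℕ) : zeta p (n + k) ^ (p ^ k) = zeta p n := by
  induction k with
  | zero => rw [pow_zero, pow_one, add_zero]
  | succ k ih => rw [pow_succ', pow_mul, ← add_assoc, zeta_succ, ih]

lemma zeta_pow_self (n : ℕ) : zeta p n ^ (p ^ n) = 1 := by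
  have := zeta_pow p 0 n
  rwa [zero_add] at this

variable {p} {z : ℤ_[p]}

/-- The vectors of the Tate module given by the roots of unity in the two coordinates. -/
noncomputable def ev (i : Fin 2) : Tate p ((av p (matL p z) (matL_symm p z)).Points (QB p)) :=
  Tate.mk (fun n => ptL (matL_symm p z) (Pi.mulSingle i (zeta p n))) (by
      change ptL (matL_symm p z) (Pi.mulSingle i 1) = 0
      rw [Pi.mulSingle_one, ptL_one]) (by
      intro n
      rw [← ptL_pow]
      congr 1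
      rw [← Pi.mulSingle_pow, zeta_succ])

lemma ev_apply (i : Fin 2) (n : ℕ) :
    (ev (z := z) i).1 n = ptL (matL_symm p z) (Pi.mulSingle i (zeta p n)) := rfl

lemma tPhi_ev : tPhi (matL_symm p z) (ev 0) = ev 1 := by
  ext n
  have h1 := tPhi_rel (matL_symm p z) (ev 0) n
  refine h1.unique ?_
  have hd : ∃ e : ℤ_[p], z - ((z.appr n : ℤ) : ℤ_[p]) = (p : ℤ_[p]) ^ n * e := by
    have := Tate.mem_appr z n
    rwa [Ideal.mem_span_singleton] at this
  obtain ⟨e, he⟩ := hd
  refine ⟨Pi.mulSingle 0 (zeta p n), 0, !![0, 1; 1, (z.appr n : ℤ)], !![0, 0; 0, e], rfl, ?_, ?_, ?_⟩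
  · rw [lam_zero, map_one, ← Pi.mulSingle_pow, zeta_pow_self, Pi.mulSingle_one]
  · ext i j
    rw [Matrix.add_apply, Matrix.smul_apply, smul_eq_mul]
    simp only [cm, Matrix.map_apply, Int.coe_castRingHom]
    fin_cases i <;> fin_cases j
    · simp [matL]
    · simp [matL]
    · simp [matL]
    · simp only [matL, Fin.mk_one, Fin.isValue, Matrix.of_apply, Matrix.cons_val', Matrix.cons_val_one,
        Matrix.cons_val_fin_one]
      rw [Nat.cast_pow, ← he]
      ring
  · rw [ev_apply]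
    congr 1
    unfold val
    have h0 : cv p (0 : Fin 2 → ℤ) = 0 := by
      funext i
      simp [cv]
    rw [h0, Matrix.mulVec_zero, kv_zero, map_one, inv_one, mul_one]
    funext i
    rw [monomial_apply]
    fin_cases i <;> simp [Pi.mulSingle_apply]

/-- If `z` is irrational, the endomorphisms of the abelian surface are the integers. -/
lemma endRing_eq (hz : ∀ b n : ℤ, (b : ℤ_[p]) * z = n → b = 0)
    (α : (av p (matL p z) (matL_symm p z)).EndA) :
    ∃ n : ℤ, α = algebraMap ℤ (av p (matL p z) (matL_symm p z)).EndA n := by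
  obtain ⟨α, hα⟩ := α
  have h := comm_of_mem (matL_symm p z) hα
  change Matrix (Fin 2) (Fin 2) ℤ at α
  have h00 := congrFun (congrFun h 0) 0
  have h01 := congrFun (congrFun h 0) 1
  have h10 := congrFun (congrFun h 1) 0
  simp only [Matrix.mul_apply, Fin.sum_univ_two, cm, Matrix.map_apply, Int.coe_castRingHom, matL,
    Matrix.of_apply, Matrix.cons_val', Matrix.cons_val_zero, Matrix.cons_val_one,
    Matrix.cons_val_fin_one, mul_zero, mul_one, zero_mul, one_mul, zero_add] at h00 h01 h10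
  have e1 : α 0 1 = α 1 0 := by exact_mod_cast h00
  have e2 : α 0 1 = 0 := by
    apply hz (α 0 1) (α 1 1 - α 0 0)
    push_cast
    rw [← h01]
    ring
  have e3 : α 1 1 = α 0 0 := by
    rw [← e1, e2] at h10
    have : (α 1 1 : ℤ_[p]) = (α 0 0 : ℤ_[p]) := by
      rw [h10]
      simp
    exact_mod_cast this
  refine ⟨α 0 0, ?_⟩
  apply Subtype.ext
  change α = (algebraMap ℤ (av p (matL p z) (matL_symm p z)).EndA (α 0 0)).1
  have h5 : ∀ n : ℤ, (algebraMap ℤ (av p (matL p z) (matL_symm p z)).EndA n).1 =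
      (n • (1 : Matrix (Fin 2) (Fin 2) ℤ)) := by
    intro n
    rw [Algebra.algebraMap_eq_smul_one]
    rfl
  rw [h5]
  ext i j
  fin_cases i <;> fin_cases j
  · simp
  · simp [e2]
  · simp [← e1, e2]
  · simp [e3]

lemma tateMap_scalar (hz : ∀ b n : ℤ, (b : ℤ_[p]) * z = n → b = 0)
    (t : ℚ_[p] ⊗[ℤ] (av p (matL p z) (matL_symm p z)).EndA) :
    ∃ c : ℚ_[p], ((av p (matL p z) (matL_symm p z)).tateMap p t) =
      algebraMap ℚ_[p] ((av p (matL p z) (matL_symm p z)).GalEnd p) c := by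
  induction t using TensorProduct.induction_on with
  | zero => exact ⟨0, by rw [map_zero, map_zero]⟩
  | tmul c α =>
    obtain ⟨n, rfl⟩ := endRing_eq hz α
    refine ⟨c * n, ?_⟩
    rw [TotDegAV.tateMap_tmul]
    have h1 : (av p (matL p z) (matL_symm p z)).endToGaloisEnd p
        (algebraMap ℤ (av p (matL p z) (matL_symm p z)).EndA n) =
        algebraMap ℚ_[p] ((av p (matL p z) (matL_symm p z)).GalEnd p) (n : ℚ_[p]) := by
      rw [eq_intCast, map_intCast, map_intCast]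
    rw [h1, map_mul, Algebra.smul_def]
  | add t t' ht ht' =>
    obtain ⟨c, hc⟩ := ht
    obtain ⟨c', hc'⟩ := ht'
    exact ⟨c + c', by rw [map_add, map_add, hc, hc']⟩

theorem not_surjective (hz : ∀ b n : ℤ, (b : ℤ_[p]) * z = n → b = 0) :
    ¬ Function.Surjective ((av p (matL p z) (matL_symm p z)).tateMap p) := by
  intro hs
  obtain ⟨t, ht⟩ := hs (vPhi (matL_symm p z))
  obtain ⟨c, hc⟩ := tateMap_scalar hz t
  have h1' : oneT (matL_symm p z) (ev (z := z) 1) = c • oneT (matL_symm p z) (ev (z := z) 0) := by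
    rw [← tPhi_ev, ← vPhi_one, ← ht, hc, app_algebraMap]
  have h1 : (1 : ℚ_[p]) ⊗ₜ[ℤ_[p]] (ev (z := z) 1) =
    c • ((1 : ℚ_[p]) ⊗ₜ[ℤ_[p]] (ev (z := z) 0)) := h1'
  obtain ⟨k, hk⟩ : ∃ k : ℕ, ‖c * (p : ℚ_[p]) ^ k‖ ≤ 1 := by
    have hp1 : (1 : ℝ) < p := by exact_mod_cast hp.out.one_lt
    obtain ⟨k, hk⟩ := pow_unbounded_of_one_lt ‖c‖ hp1
    refine ⟨k, ?_⟩
    rw [norm_mul, norm_pow, Padic.norm_p, inv_pow, ← div_eq_mul_inv, div_le_one (by positivity)]
    exact hk.le
  obtain ⟨w, hw⟩ : ∃ w : ℤ_[p], (w : ℚ_[p]) = c * (p : ℚ_[p]) ^ k := ⟨⟨_, hk⟩, rfl⟩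
  have h2 : ((p ^ k : ℕ) : ℤ_[p]) • ev (z := z) 1 = w • ev 0 := by
    rw [← sub_eq_zero]
    apply RatTate.eq_zero
    rw [TensorProduct.tmul_sub, TensorProduct.tmul_smul, TensorProduct.tmul_smul, sub_eq_zero, h1]
    rw [TensorProduct.smul_tmul', TensorProduct.smul_tmul', TensorProduct.smul_tmul']
    congr 1
    rw [smul_eq_mul, mul_one, Algebra.smul_def, Algebra.smul_def, mul_one]
    change ((((p ^ k : ℕ) : ℤ_[p]) : ℚ_[p])) * c = (w : ℚ_[p])
    rw [hw]
    push_cast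
    ring
  have h3 : (((p ^ k : ℕ) : ℤ_[p]) • ev (z := z) 1).1 (k + 1) = (w • ev (z := z) 0).1 (k + 1) := by
    rw [h2]
  rw [Tate.smul_apply (a := ((p ^ k : ℕ) : ℤ)) (by simp), Tate.smul_apply (Tate.mem_appr w (k + 1)),
    natCast_zsmul, natCast_zsmul, ev_apply, ev_apply, ← ptL_pow, ← ptL_pow, ← Pi.mulSingle_pow,
    ← Pi.mulSingle_pow, add_comm k 1, zeta_pow] at h3
  obtain ⟨m, hm⟩ := ptL_eq _ h3
  have h4 : (1 : Fin 2 → (QB p)ˣ) = inc p (lam p (matL p z) (((p ^ (1 + k) : ℕ) : ℤ) • m)) := by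
    have h5 := congrArg (fun u => u ^ (p ^ (1 + k))) hm
    simp only [mul_pow] at h5
    have h8 : zeta p 1 ^ (p ^ (1 + k)) = 1 := by
      rw [pow_add p 1 k, pow_mul (zeta p 1), zeta_pow_self, one_pow]
    rw [← Pi.mulSingle_pow, ← Pi.mulSingle_pow, ← pow_mul, mul_comm, pow_mul, zeta_pow_self, one_pow,
      Pi.mulSingle_one, h8, Pi.mulSingle_one] at h5
    rw [lam_smul, zpow_natCast, map_pow]
    rw [one_mul] at h5
    exact h5
  have h5 : ((p ^ (1 + k) : ℕ) : ℤ) • m = 0 := by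
    apply inc_lam_injective (p := p) (L := matL p z)
    rw [← h4, lam_zero, map_one]
  have h6 : m = 0 := by
    have : ((p ^ (1 + k) : ℕ) : ℤ) ≠ 0 := by
      have := (pow_pos hp.out.pos (1 + k)).ne'
      exact_mod_cast this
    exact (smul_eq_zero.1 h5).resolve_left this
  rw [h6, lam_zero, map_one, mul_one] at hm
  have h7 := congrFun hm 1
  rw [Pi.mulSingle_eq_same, Pi.mulSingle_eq_of_ne (by decide)] at h7
  exact zetaSeq_zero_ne p h7.symm

end Pool.Agent.V1143.TD
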