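import Pool.Agent.V1143.TD.Defs

/-!
# The units `(1 + p) ^ w`, `w ∈ ℤ_p`, and the lattices given by symmetric matrices over `ℤ_p`
-/

set_option autoImplicit false

namespace Pool.Agent.V1143.TD

open TensorProduct Matrix

variable (p : ℕ) [hp : Fact p.Prime]

lemma norm_p_lt : ‖(p : ℤ_[p])‖ < 1 := by
  rw [PadicInt.norm_p]
  exact inv_lt_one_of_one_lt₀ (by exact_mod_cast hp.out.one_lt)

/-- The continuous character `w ↦ (1 + p) ^ w` of `ℤ_p`. -/
noncomputable def kapChar : AddChar ℤ_[p] ℤ_[p] :=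
  ((PadicInt.continuousAddCharEquiv_of_norm_mul p ℤ_[p]).symm
    ⟨(p : ℤ_[p]), norm_p_lt p⟩).1

lemma continuous_kapChar : Continuous (kapChar p) :=
  ((PadicInt.continuousAddCharEquiv_of_norm_mul p ℤ_[p]).symm
    ⟨(p : ℤ_[p]), norm_p_lt p⟩).2

lemma kapChar_one : kapChar p 1 = 1 + p := by
  unfold kapChar
  rw [PadicInt.continuousAddCharEquiv_of_norm_mul_symm_apply]
  exact PadicInt.addChar_of_value_at_one_def _

/-- The unit `(1 + p) ^ w` of `ℤ_p`. -/
noncomputable def kapInt (w : ℤ_[p]) : ℤ_[p]ˣ :=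
  (kapChar p).toMonoidHom.toHomUnits (Multiplicative.ofAdd w)

/-- The unit `(1 + p) ^ w`. -/
noncomputable def kap (w : ℤ_[p]) : ℚ_[p]ˣ :=
  Units.map (algebraMap ℤ_[p] ℚ_[p]).toMonoidHom (kapInt p w)

lemma coe_kap (w : ℤ_[p]) : (kap p w : ℚ_[p]) = (kapChar p w : ℤ_[p]) := rfl

lemma kap_add (v w : ℤ_[p]) : kap p (v + w) = kap p v * kap p w := by
  unfold kap kapInt
  rw [ofAdd_add, map_mul, map_mul]

lemma kap_zero : kap p 0 = 1 := by
  unfold kap kapInt
  rw [ofAdd_zero, map_one, map_one]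

lemma kap_neg (v : ℤ_[p]) : kap p (-v) = (kap p v)⁻¹ := by
  unfold kap kapInt
  rw [ofAdd_neg, map_inv, map_inv]

lemma kap_int (n : ℤ) (v : ℤ_[p]) : kap p (n * v) = kap p v ^ n := by
  unfold kap kapInt
  rw [← zsmul_eq_mul, ofAdd_zsmul, map_zpow, map_zpow]

lemma kap_sum {ι : Type*} (s : Finset ι) (f : ι → ℤ_[p]) :
    kap p (∑ i ∈ s, f i) = ∏ i ∈ s, kap p (f i) := by
  classical
  induction s using Finset.induction_on with
  | empty => rw [Finset.sum_empty, Finset.prod_empty, kap_zero]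
  | insert a s ha ih => rw [Finset.sum_insert ha, Finset.prod_insert ha, kap_add, ih]

lemma norm_kap (w : ℤ_[p]) : ‖(kap p w : ℚ_[p])‖ = 1 := by
  have := PadicInt.norm_units (kapInt p w)
  exact this

lemma kap_eq_one {w : ℤ_[p]} (h : kap p w = 1) : w = 0 := by
  by_contra hw
  have h0 : kapChar p w = 1 := by
    have h2 := congrArg (Units.val) h
    rw [coe_kap] at h2
    exact Subtype.ext h2
  have hn : ∀ n : ℕ, kapChar p ((n : ℤ_[p]) * w) = 1 := by
    intro n
    have := AddChar.map_nsmul_eq_pow (kapChar p) n w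
    rw [nsmul_eq_mul, h0, _root_.one_pow] at this
    exact this
  have h1 : ∀ z : ℤ_[p], kapChar p (z * w) = 1 := by
    have hc : Continuous fun z : ℤ_[p] => kapChar p (z * w) :=
      (continuous_kapChar p).comp (continuous_id.mul continuous_const)
    have hd : DenseRange (Nat.cast : ℕ → ℤ_[p]) := PadicInt.denseRange_natCast
    have := hd.equalizer hc (continuous_const (y := (1 : ℤ_[p]))) (by
      funext n
      exact hn n)
    exact fun z => congrFun this z
  have h2 := h1 ((PadicInt.unitCoeff hw)⁻¹ : ℤ_[p]ˣ)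
  have h3 : (((PadicInt.unitCoeff hw)⁻¹ : ℤ_[p]ˣ) : ℤ_[p]) * w = (p ^ w.valuation : ℕ) • 1 := by
    have h5 := PadicInt.unitCoeff_spec hw
    calc (((PadicInt.unitCoeff hw)⁻¹ : ℤ_[p]ˣ) : ℤ_[p]) * w
        = (((PadicInt.unitCoeff hw)⁻¹ : ℤ_[p]ˣ) : ℤ_[p]) *
          ((PadicInt.unitCoeff hw : ℤ_[p]) * (p : ℤ_[p]) ^ w.valuation) := by rw [← h5]
      _ = (p : ℤ_[p]) ^ w.valuation := by rw [← mul_assoc, Units.inv_mul, one_mul]
      _ = _ := by rw [nsmul_eq_mul, mul_one]; push_cast; rfl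
  rw [h3, AddChar.map_nsmul_eq_pow, kapChar_one] at h2
  have h4 : ((1 + p) ^ (p ^ w.valuation) : ℕ) = 1 := by
    have : (((1 + p) ^ (p ^ w.valuation) : ℕ) : ℤ_[p]) = ((1 : ℕ) : ℤ_[p]) := by
      push_cast
      exact h2
    exact_mod_cast this
  have h5 : 1 < (1 + p) ^ (p ^ w.valuation) :=
    Nat.one_lt_pow (pow_pos hp.out.pos _).ne' (by have := hp.out.pos; omega)
  omega

/-- The unit `p` of `ℚ_p`. -/
noncomputable def pU : ℚ_[p]ˣ := Units.mk0 (p : ℚ_[p]) (by exact_mod_cast hp.out.ne_zero)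

lemma coe_pU : (pU p : ℚ_[p]) = p := rfl

/-- If `p ^ k (1 + p) ^ w = 1` then `k = 0` and `w = 0`. -/
lemma eq_zero_of_mul {k : ℤ} {w : ℤ_[p]} (h : pU p ^ k * kap p w = 1) : k = 0 ∧ w = 0 := by
  have h1 : k = 0 := by
    have h2 := congrArg (fun u : ℚ_[p]ˣ => ‖(u : ℚ_[p])‖) h
    simp only [Units.val_mul, Units.val_zpow_eq_zpow_val, norm_mul, norm_zpow, norm_kap, coe_pU,
      Units.val_one, norm_one, mul_one, Padic.norm_p] at h2
    have hp1 : (1 : ℝ) < p := by exact_mod_cast hp.out.one_lt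
    rw [_root_.inv_zpow, inv_eq_one] at h2
    exact (zpow_eq_one_iff_right₀ (by positivity) hp1.ne').1 h2
  refine ⟨h1, ?_⟩
  rw [h1, zpow_zero, one_mul] at h
  exact kap_eq_one p h

variable {g : ℕ}

/-- The vector `((1 + p) ^ (v i))_i`. -/
noncomputable def kv (v : Fin g → ℤ_[p]) : Fin g → ℚ_[p]ˣ := fun i => kap p (v i)

lemma kv_add (v w : Fin g → ℤ_[p]) : kv p (v + w) = kv p v * kv p w := by
  funext i
  exact kap_add p _ _

lemma kv_neg (v : Fin g → ℤ_[p]) : kv p (-v) = (kv p v)⁻¹ := by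
  funext i
  exact kap_neg p _

lemma kv_zero : kv p (0 : Fin g → ℤ_[p]) = 1 := by
  funext i
  exact kap_zero p

/-- The `ℤ_p`-vector given by an integral vector. -/
noncomputable def cv (m : Fin g → ℤ) : Fin g → ℤ_[p] := fun i => (m i : ℤ_[p])

/-- The `ℤ_p`-matrix given by an integral matrix. -/
noncomputable def cm (a : Matrix (Fin g) (Fin g) ℤ) : Matrix (Fin g) (Fin g) ℤ_[p] := a.map (Int.castRingHom ℤ_[p])

lemma cm_add (a b : Matrix (Fin g) (Fin g) ℤ) : cm p (a + b) = cm p a + cm p b := by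
  unfold cm
  exact map_add (Int.castRingHom ℤ_[p]).mapMatrix a b

lemma cm_mul (a b : Matrix (Fin g) (Fin g) ℤ) : cm p (a * b) = cm p a * cm p b := by
  unfold cm
  exact map_mul (Int.castRingHom ℤ_[p]).mapMatrix a b

lemma cm_smul (n : ℤ) (a : Matrix (Fin g) (Fin g) ℤ) : cm p (n • a) = (n : ℤ_[p]) • cm p a := by
  ext i j
  simp only [cm, Matrix.map_apply, Matrix.smul_apply, smul_eq_mul, Int.coe_castRingHom]
  push_cast
  rfl

lemma cv_add (m m' : Fin g → ℤ) : cv p (m + m') = cv p m + cv p m' := by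
  funext i
  simp [cv]

lemma cv_smul (n : ℤ) (m : Fin g → ℤ) : cv p (n • m) = (n : ℤ_[p]) • cv p m := by
  funext i
  simp [cv]

lemma cv_mulVec (a : Matrix (Fin g) (Fin g) ℤ) (m : Fin g → ℤ) :
    cv p (a *ᵥ m) = cm p a *ᵥ cv p m := by
  funext i
  simp [cv, cm, Matrix.mulVec, dotProduct]

variable (L : Matrix (Fin g) (Fin g) ℤ_[p])

/-- The element `∏ k, (Q k) ^ m k` of the lattice. -/
noncomputable def lam (m : Fin g → ℤ) : Fin g → ℚ_[p]ˣ :=
  fun i => pU p ^ m i * kap p ((L *ᵥ cv p m) i)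

lemma lam_apply (m : Fin g → ℤ) (i : Fin g) :
    lam p L m i = pU p ^ m i * kap p ((L *ᵥ cv p m) i) := rfl

lemma lam_add (m m' : Fin g → ℤ) : lam p L (m + m') = lam p L m * lam p L m' := by
  funext i
  rw [lam_apply, cv_add, Matrix.mulVec_add, Pi.add_apply, Pi.add_apply, kap_add, _root_.zpow_add,
    Pi.mul_apply, lam_apply, lam_apply]
  exact mul_mul_mul_comm _ _ _ _

lemma lam_zero : lam p L 0 = 1 := by
  have h := lam_add p L 0 0
  rw [add_zero] at h
  exact (left_eq_mul (M := Fin g → ℚ_[p]ˣ)).1 h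

/-- The homomorphism `m ↦ lam m`. -/
noncomputable def lamHom : Multiplicative (Fin g → ℤ) →* (Fin g → ℚ_[p]ˣ) where
  toFun m := lam p L (Multiplicative.toAdd m)
  map_one' := lam_zero p L
  map_mul' _ _ := lam_add p L _ _

lemma lam_smul (n : ℤ) (m : Fin g → ℤ) : lam p L (n • m) = lam p L m ^ n := by
  have := map_zpow (lamHom p L) (Multiplicative.ofAdd m) n
  rw [← ofAdd_zsmul] at this
  exact this

lemma lam_neg (m : Fin g → ℤ) : lam p L (-m) = (lam p L m)⁻¹ := by
  have := map_inv (lamHom p L) (Multiplicative.ofAdd m)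
  rw [← ofAdd_neg] at this
  exact this

lemma lam_sum {ι : Type*} (s : Finset ι) (f : ι → Fin g → ℤ) :
    lam p L (∑ i ∈ s, f i) = ∏ i ∈ s, lam p L (f i) := by
  classical
  induction s using Finset.induction_on with
  | empty => rw [Finset.sum_empty, Finset.prod_empty, lam_zero]
  | insert a s ha ih => rw [Finset.sum_insert ha, Finset.prod_insert ha, lam_add, ih]

lemma lam_eq_one {m : Fin g → ℤ} (h : lam p L m = 1) : m = 0 := by
  funext i
  exact (eq_zero_of_mul p (congrFun h i)).1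

lemma lam_injective {m m' : Fin g → ℤ} (h : lam p L m = lam p L m') : m = m' := by
  have h1 : lam p L (m + -m') = 1 := by rw [lam_add, lam_neg, h, mul_inv_cancel]
  have h2 := lam_eq_one p L h1
  rw [← sub_eq_add_neg] at h2
  exact sub_eq_zero.1 h2

/-- The effect of the endomorphism `monomial a` on the lattice. -/
lemma monomial_lam (a : Matrix (Fin g) (Fin g) ℤ) (m : Fin g → ℤ) :
    monomial a (lam p L m) = lam p L (a *ᵥ m) * kv p ((cm p a * L - L * cm p a) *ᵥ cv p m) := by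
  funext i
  rw [monomial_apply, Pi.mul_apply, lam_apply]
  have h1 : ∀ j, lam p L m j ^ a i j =
      pU p ^ (a i j * m j) * kap p ((a i j : ℤ_[p]) * (L *ᵥ cv p m) j) := by
    intro j
    rw [lam_apply, mul_zpow, ← _root_.zpow_mul, kap_int, mul_comm (m j)]
  rw [Finset.prod_congr rfl fun j _ => h1 j, Finset.prod_mul_distrib, ← kap_sum]
  have h2 : ∏ j, pU p ^ (a i j * m j) = pU p ^ (a *ᵥ m) i := by
    rw [Matrix.mulVec, dotProduct]
    have : ∀ s : Finset (Fin g), pU p ^ (∑ j ∈ s, a i j * m j) =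
        ∏ j ∈ s, pU p ^ (a i j * m j) := by
      intro s
      induction s using Finset.induction_on with
      | empty => simp
      | insert b s hb ih => rw [Finset.sum_insert hb, Finset.prod_insert hb, _root_.zpow_add, ih]
    exact (this _).symm
  have h3 : ∑ j, (a i j : ℤ_[p]) * (L *ᵥ cv p m) j = (cm p a *ᵥ (L *ᵥ cv p m)) i := by
    rw [Matrix.mulVec, dotProduct]
    rfl
  rw [h2, h3, mul_assoc]
  congr 1
  change _ = kap p _ * kap p _
  rw [← kap_add, ← Pi.add_apply, cv_mulVec, Matrix.sub_mulVec, Matrix.mulVec_mulVec,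
    Matrix.mulVec_mulVec]
  congr 1
  simp

end Pool.Agent.V1143.TD
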