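import Pool.Agent.V1143.TD.Kap

/-!
# The abelian variety given by a symmetric matrix `L` over `ℤ_p`, and the action of `L` on its Tate
module
-/

set_option autoImplicit false

namespace Pool.Agent.V1143.TD

open TensorProduct Matrix

variable (p : ℕ) [hp : Fact p.Prime] {g : ℕ}

lemma lam_single (L : Matrix (Fin g) (Fin g) ℤ_[p]) (k i : Fin g) :
    lam p L (Pi.single k 1) i = pU p ^ (Pi.single k 1 : Fin g → ℤ) i * kap p (L i k) := by
  rw [lam_apply]
  congr 2
  have : cv p (Pi.single k 1) = Pi.single k 1 := by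
    funext j
    simp only [cv]
    by_cases hj : j = k
    · subst hj
      simp
    · simp [Pi.single_eq_of_ne hj]
  rw [this, Matrix.mulVec_single_one]
  rfl

lemma lam_eq_prod (L : Matrix (Fin g) (Fin g) ℤ_[p]) (m : Fin g → ℤ) :
    lam p L m = ∏ k, lam p L (Pi.single k 1) ^ m k := by
  have h : m = ∑ k, m k • (Pi.single k 1 : Fin g → ℤ) := by
    funext i
    rw [Finset.sum_apply, Finset.sum_eq_single i]
    · simp
    · intro j _ hj
      simp [Pi.single_eq_of_ne hj.symm]
    · intro h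
      exact absurd (Finset.mem_univ i) h
  conv_lhs => rw [h]
  rw [lam_sum]
  exact Finset.prod_congr rfl fun k _ => lam_smul p L _ _

/-- The abelian variety over `ℚ_p` with the periods `Q i j = p ^ δ i j * (1 + p) ^ L i j`, where `L` is a
symmetric matrix over `ℤ_p`. -/
noncomputable def av (L : Matrix (Fin g) (Fin g) ℤ_[p]) (hL : L.IsSymm) : TotDegAV ℚ_[p] where
  g := g
  Q i := lam p L (Pi.single i 1)
  P := 1
  symm i k := by
    have h : ∀ q : Fin g → ℚ_[p]ˣ, ∀ l, ∏ j, q j ^ (1 : Matrix (Fin g) (Fin g) ℤ) l j = q l :=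
      fun q l => congrFun (monomial_one q) l
    rw [h, h, lam_single, lam_single, hL.apply]
    congr 2
    by_cases hik : i = k
    · subst hik
      rfl
    · rw [Pi.single_eq_of_ne hik, Pi.single_eq_of_ne (Ne.symm hik)]
  pos m hm := by
    have h : ∏ i, ∏ k, ∏ j, lam p L (Pi.single k 1) j ^
        (m i * m k * (1 : Matrix (Fin g) (Fin g) ℤ) i j) = ∏ i, lam p L m i ^ m i := by
      refine Finset.prod_congr rfl fun i _ => ?_
      have h1 : ∀ k, ∏ j, lam p L (Pi.single k 1) j ^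
          (m i * m k * (1 : Matrix (Fin g) (Fin g) ℤ) i j) =
            (lam p L (Pi.single k 1) i ^ m k) ^ m i := by
        intro k
        have h2 := congrFun (monomial_one (F := ℚ_[p])
          (fun j => lam p L (Pi.single k 1) j ^ (m i * m k))) i
        rw [monomial_apply] at h2
        rw [← _root_.zpow_mul, mul_comm (m k), ← h2]
        exact Finset.prod_congr rfl fun j _ => _root_.zpow_mul _ _ _
      rw [Finset.prod_congr rfl fun k _ => h1 k, Finset.prod_zpow]
      congr 1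
      rw [lam_eq_prod p L m, Finset.prod_apply]
      rfl
    rw [h]
    have h3 : ∀ i, ‖((lam p L m i ^ m i : ℚ_[p]ˣ) : ℚ_[p])‖ =
        ((p : ℝ)⁻¹) ^ ((m i).natAbs * (m i).natAbs) := by
      intro i
      rw [lam_apply, Units.val_zpow_eq_zpow_val, Units.val_mul, Units.val_zpow_eq_zpow_val,
        norm_zpow, norm_mul, norm_kap, mul_one, norm_zpow, coe_pU, Padic.norm_p,
        ← _root_.zpow_mul, ← zpow_natCast]
      congr 1
      push_cast
      exact (abs_mul_abs_self _).symm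
    rw [Units.coe_prod, norm_prod, Finset.prod_congr rfl fun i _ => h3 i,
      Finset.prod_pow_eq_pow_sum]
    have hp1 : (1 : ℝ) < p := by exact_mod_cast hp.out.one_lt
    apply pow_lt_one₀ (by positivity) (inv_lt_one_of_one_lt₀ hp1)
    intro h0
    apply hm
    funext i
    have := (Finset.sum_eq_zero_iff.1 h0) i (Finset.mem_univ i)
    have h4 : (m i).natAbs = 0 := by
      rcases Nat.mul_eq_zero.1 this with h | h <;> exact h
    exact Int.natAbs_eq_zero.1 h4

/-- The algebraic closure of `ℚ_p`. -/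
abbrev QB : Type := AlgebraicClosure ℚ_[p]

/-- The embedding of the points of the torus with values in `ℚ_p` in those with values in its
algebraic closure. -/
noncomputable def inc : (Fin g → ℚ_[p]ˣ) →* (Fin g → (QB p)ˣ) where
  toFun y j := Units.map (algebraMap ℚ_[p] (QB p)).toMonoidHom (y j)
  map_one' := by
    funext j
    exact map_one _
  map_mul' y z := by
    funext j
    exact map_mul _ _ _

lemma inc_injective : Function.Injective (inc p (g := g)) := by
  intro y z h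
  funext j
  have h1 := congrArg Units.val (congrFun h j)
  exact Units.ext ((algebraMap ℚ_[p] (QB p)).injective h1)

lemma monomial_inc (α : Matrix (Fin g) (Fin g) ℤ) (y : Fin g → ℚ_[p]ˣ) :
    monomial α (inc p y) = inc p (monomial α y) := by
  funext i
  change ∏ j, (inc p y) j ^ α i j = Units.map (algebraMap ℚ_[p] (QB p)).toMonoidHom (monomial α y i)
  rw [monomial_apply, map_prod]
  exact Finset.prod_congr rfl fun j _ =>
    (map_zpow (Units.map (algebraMap ℚ_[p] (QB p)).toMonoidHom) _ _).symm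

variable {p} {L : Matrix (Fin g) (Fin g) ℤ_[p]} (hL : L.IsSymm)

lemma mem_lattice_base {y : Fin g → ℚ_[p]ˣ} :
    y ∈ (av p L hL).lattice ℚ_[p] ↔ ∃ m, y = lam p L m := by
  have h : (av p L hL).lattice ℚ_[p] = (lamHom p L).range := by
    apply le_antisymm
    · unfold TotDegAV.lattice
      rw [Subgroup.closure_le]
      rintro _ ⟨i, rfl⟩
      refine ⟨Multiplicative.ofAdd (Pi.single i 1), ?_⟩
      funext j
      ext
      rfl
    · rintro _ ⟨m, rfl⟩
      change lam p L (Multiplicative.toAdd m) ∈ _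
      rw [lam_eq_prod]
      refine Subgroup.prod_mem _ fun k _ => Subgroup.zpow_mem _ ?_ _
      apply Subgroup.subset_closure
      refine ⟨k, ?_⟩
      funext j
      ext
      rfl
  rw [h]
  constructor
  · rintro ⟨m, rfl⟩
    exact ⟨_, rfl⟩
  · rintro ⟨m, rfl⟩
    exact ⟨Multiplicative.ofAdd m, rfl⟩

lemma mem_lattice {y : Fin g → (QB p)ˣ} :
    y ∈ (av p L hL).lattice (QB p) ↔ ∃ m, y = inc p (lam p L m) := by
  rw [TotDegAV.lattice_map]
  constructor
  · rintro ⟨z, hz, rfl⟩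
    obtain ⟨m, rfl⟩ := (mem_lattice_base hL).1 hz
    exact ⟨m, rfl⟩
  · rintro ⟨m, rfl⟩
    exact ⟨_, (mem_lattice_base hL).2 ⟨m, rfl⟩, rfl⟩

/-- The point of the abelian variety given by a point of the torus. -/
noncomputable def ptL (y : Fin g → (QB p)ˣ) : (av p L hL).Points (QB p) := (av p L hL).pt (QB p) y

lemma ptL_mul (y z : Fin g → (QB p)ˣ) : ptL hL (y * z) = ptL hL y + ptL hL z := rfl

lemma ptL_one : ptL hL 1 = 0 := rfl

lemma ptL_pow (y : Fin g → (QB p)ˣ) (n : ℕ) : ptL hL (y ^ n) = n • ptL hL y := rfl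

lemma ptL_lam (m : Fin g → ℤ) : ptL hL (inc p (lam p L m)) = 0 :=
  ((av p L hL).pt_eq_zero (QB p)).2 ((mem_lattice hL).2 ⟨m, rfl⟩)

lemma ptL_eq {y y' : Fin g → (QB p)ˣ} (h : ptL hL y = ptL hL y') :
    ∃ k, y' = y * inc p (lam p L k) := by
  have h1 : y⁻¹ * y' ∈ (av p L hL).lattice (QB p) := by
    have : (QuotientGroup.mk y : (Fin g → (QB p)ˣ) ⧸ (av p L hL).lattice (QB p)) =
      QuotientGroup.mk y' := h
    exact QuotientGroup.eq.1 this
  obtain ⟨k, hk⟩ := (mem_lattice hL).1 h1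
  exact ⟨k, by rw [← hk, mul_inv_cancel_left]⟩

lemma ptL_surjective (x : (av p L hL).Points (QB p)) : ∃ y, ptL hL y = x :=
  (av p L hL).pt_surjective (QB p) x

/-- The point of the torus which represents `L • x`, for `x` the `p ^ n`-torsion point given by `y`;
here `y ^ (p ^ n)` is the element `m` of the lattice and `L = a + p ^ n * d` with `a` integral. -/
noncomputable def val (y : Fin g → (QB p)ˣ) (m : Fin g → ℤ) (a : Matrix (Fin g) (Fin g) ℤ)
    (d : Matrix (Fin g) (Fin g) ℤ_[p]) : Fin g → (QB p)ˣ :=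
  monomial a y * (inc p (kv p ((cm p a * d - d * cm p a) *ᵥ cv p m)))⁻¹

lemma kv_pow (v : Fin g → ℤ_[p]) (n : ℕ) : kv p v ^ n = kv p ((n : ℤ_[p]) • v) := by
  funext i
  rw [Pi.pow_apply]
  have := kap_int p n (v i)
  rw [zpow_natCast] at this
  exact (by exact_mod_cast this.symm)

lemma inc_kv_add (v w : Fin g → ℤ_[p]) : inc p (kv p (v + w)) = inc p (kv p v) * inc p (kv p w) := by
  rw [kv_add, map_mul]

lemma inc_kv_neg (v : Fin g → ℤ_[p]) : inc p (kv p (-v)) = (inc p (kv p v))⁻¹ := by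
  rw [kv_neg, map_inv]

lemma inc_lam_add (m m' : Fin g → ℤ) :
    inc p (lam p L (m + m')) = inc p (lam p L m) * inc p (lam p L m') := by
  rw [lam_add, map_mul]

lemma inc_lam_injective {m m' : Fin g → ℤ} (h : inc p (lam p L m) = inc p (lam p L m')) :
    m = m' := lam_injective p L (inc_injective p h)

lemma monomial_inc_lam (a : Matrix (Fin g) (Fin g) ℤ) (m : Fin g → ℤ) :
    monomial a (inc p (lam p L m)) = inc p (lam p L (a *ᵥ m)) *
      inc p (kv p ((cm p a * L - L * cm p a) *ᵥ cv p m)) := by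
  rw [monomial_inc, monomial_lam, map_mul]

lemma monomial_smul (n : ℕ) (a : Matrix (Fin g) (Fin g) ℤ) (y : Fin g → (QB p)ˣ) :
    monomial ((n : ℤ) • a) y = monomial a (y ^ n) := by
  funext i
  rw [monomial_apply, monomial_apply]
  refine Finset.prod_congr rfl fun j _ => ?_
  rw [Pi.pow_apply, Matrix.smul_apply, smul_eq_mul, _root_.zpow_mul, zpow_natCast]

lemma comm_L {n : ℕ} {a : Matrix (Fin g) (Fin g) ℤ} {d : Matrix (Fin g) (Fin g) ℤ_[p]}
    (h : L = cm p a + ((p ^ n : ℕ) : ℤ_[p]) • d) :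
    cm p a * L - L * cm p a = ((p ^ n : ℕ) : ℤ_[p]) • (cm p a * d - d * cm p a) := by
  rw [h, mul_add, add_mul, smul_sub, Matrix.mul_smul, Matrix.smul_mul]
  abel

/-- The `p ^ n`-th power of `val` is in the lattice. -/
lemma val_pow {n : ℕ} {y : Fin g → (QB p)ˣ} {m : Fin g → ℤ} {a : Matrix (Fin g) (Fin g) ℤ}
    {d : Matrix (Fin g) (Fin g) ℤ_[p]} (hy : y ^ (p ^ n) = inc p (lam p L m))
    (h : L = cm p a + ((p ^ n : ℕ) : ℤ_[p]) • d) :
    val y m a d ^ (p ^ n) = inc p (lam p L (a *ᵥ m)) := by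
  unfold val
  rw [mul_pow, ← map_pow, hy, monomial_inc_lam, inv_pow, ← map_pow, kv_pow, comm_L h,
    Matrix.smul_mulVec, mul_assoc, mul_inv_cancel, mul_one]

/-- The value does not depend on the choices. -/
lemma val_congr {n : ℕ} {y y' : Fin g → (QB p)ˣ} {m m' : Fin g → ℤ}
    {a a' : Matrix (Fin g) (Fin g) ℤ} {d d' : Matrix (Fin g) (Fin g) ℤ_[p]}
    (hy : y ^ (p ^ n) = inc p (lam p L m)) (hy' : y' ^ (p ^ n) = inc p (lam p L m'))
    (h : L = cm p a + ((p ^ n : ℕ) : ℤ_[p]) • d) (h' : L = cm p a' + ((p ^ n : ℕ) : ℤ_[p]) • d')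
    (hyy : ptL hL y = ptL hL y') : ptL hL (val y m a d) = ptL hL (val y' m' a' d') := by
  obtain ⟨k, rfl⟩ := ptL_eq hL hyy
  have hm : m' = m + ((p ^ n : ℕ) : ℤ) • k := by
    apply inc_lam_injective (p := p) (L := L)
    rw [← hy', mul_pow, hy, inc_lam_add, lam_smul, zpow_natCast, map_pow]
  subst hm
  have hpn : ((p ^ n : ℕ) : ℤ_[p]) ≠ 0 := by
    have := (pow_pos hp.out.pos n).ne'
    exact_mod_cast this
  have hdvd : ∀ i j, ((p ^ n : ℕ) : ℤ) ∣ a' i j - a i j := by
    intro i j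
    have key : ∀ (b : Matrix (Fin g) (Fin g) ℤ) (e : Matrix (Fin g) (Fin g) ℤ_[p]),
        L = cm p b + ((p ^ n : ℕ) : ℤ_[p]) • e →
        L i j - (b i j : ℤ_[p]) ∈ (Ideal.span {(p : ℤ_[p]) ^ n} : Ideal ℤ_[p]) := by
      intro b e hb
      rw [Ideal.mem_span_singleton]
      refine ⟨e i j, ?_⟩
      have := congrFun (congrFun hb i) j
      rw [this, Matrix.add_apply, Matrix.smul_apply, smul_eq_mul]
      simp only [cm, Matrix.map_apply, Int.coe_castRingHom]
      push_cast
      ring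
    exact Tate.dvd_of_mem (key a' d' h') (key a d h)
  choose b hb using hdvd
  have ha : a' = a + ((p ^ n : ℕ) : ℤ) • (Matrix.of b) := by
    ext i j
    rw [Matrix.add_apply, Matrix.smul_apply, smul_eq_mul, Matrix.of_apply, ← hb]
    ring
  generalize Matrix.of b = c at ha
  clear hb b
  subst ha
  have hd : d' = d - cm p c := by
    have h2 : ((p ^ n : ℕ) : ℤ_[p]) • (d' - (d - cm p c)) = 0 := by
      have h3 : cm p (a + ((p ^ n : ℕ) : ℤ) • c) = cm p a + ((p ^ n : ℕ) : ℤ_[p]) • cm p c := by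
        rw [cm_add, cm_smul]
        push_cast
        rfl
      rw [h3] at h'
      have h4 := h.symm.trans h'
      rw [smul_sub, smul_sub, sub_eq_zero]
      have h5 : ((p ^ n : ℕ) : ℤ_[p]) • d =
          ((p ^ n : ℕ) : ℤ_[p]) • cm p c + ((p ^ n : ℕ) : ℤ_[p]) • d' := by
        rw [add_assoc] at h4
        exact add_left_cancel h4
      rw [h5]
      abel
    have := (smul_eq_zero.1 h2).resolve_left hpn
    exact sub_eq_zero.1 this
  subst hd
  have hc : cm p (a + ((p ^ n : ℕ) : ℤ) • c) = cm p a + ((p ^ n : ℕ) : ℤ_[p]) • cm p c := by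
    rw [cm_add, cm_smul]
    push_cast
    rfl
  have hcv : cv p (m + ((p ^ n : ℕ) : ℤ) • k) = cv p m + ((p ^ n : ℕ) : ℤ_[p]) • cv p k := by
    rw [cv_add, cv_smul]
    push_cast
    rfl
  have hmat : cm p c * L - L * cm p c - (cm p (a + ((p ^ n : ℕ) : ℤ) • c) * (d - cm p c) -
      (d - cm p c) * cm p (a + ((p ^ n : ℕ) : ℤ) • c)) = -(cm p a * d - d * cm p a) := by
    rw [hc, h]
    simp only [mul_add, add_mul, mul_sub, sub_mul, Matrix.mul_smul, Matrix.smul_mul]
    abel
  have hval : val (y * inc p (lam p L k)) (m + ((p ^ n : ℕ) : ℤ) • k)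
      (a + ((p ^ n : ℕ) : ℤ) • c) (d - cm p c) =
      val y m a d * inc p (lam p L (c *ᵥ m + (a + ((p ^ n : ℕ) : ℤ) • c) *ᵥ k)) := by
    have e1 : monomial (a + ((p ^ n : ℕ) : ℤ) • c) y = monomial a y *
        (inc p (lam p L (c *ᵥ m)) * inc p (kv p ((cm p c * L - L * cm p c) *ᵥ cv p m))) := by
      rw [monomial_add, monomial_smul, hy, monomial_inc_lam]
    have e2 : (cm p (a + ((p ^ n : ℕ) : ℤ) • c) * (d - cm p c) -
        (d - cm p c) * cm p (a + ((p ^ n : ℕ) : ℤ) • c)) *ᵥ cv p (m + ((p ^ n : ℕ) : ℤ) • k) =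
        (cm p a * d - d * cm p a) *ᵥ cv p m + (cm p c * L - L * cm p c) *ᵥ cv p m +
        (cm p (a + ((p ^ n : ℕ) : ℤ) • c) * L - L * cm p (a + ((p ^ n : ℕ) : ℤ) • c)) *ᵥ
          cv p k := by
      rw [comm_L h', hcv, Matrix.mulVec_add, Matrix.mulVec_smul, Matrix.smul_mulVec]
      congr 1
      rw [← Matrix.add_mulVec]
      congr 1
      have h6 := hmat
      rw [sub_eq_iff_eq_add] at h6
      rw [h6]
      abel
    unfold val
    rw [map_mul, e1, monomial_inc_lam, e2, inc_kv_add, inc_kv_add, inc_lam_add]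
    generalize inc p (kv p ((cm p c * L - L * cm p c) *ᵥ cv p m)) = u1
    generalize inc p (kv p ((cm p a * d - d * cm p a) *ᵥ cv p m)) = u2
    generalize inc p (kv p ((cm p (a + ((p ^ n : ℕ) : ℤ) • c) * L -
      L * cm p (a + ((p ^ n : ℕ) : ℤ) • c)) *ᵥ cv p k)) = u3
    generalize inc p (lam p L (c *ᵥ m)) = u4
    generalize inc p (lam p L ((a + ((p ^ n : ℕ) : ℤ) • c) *ᵥ k)) = u5
    generalize monomial a y = u6
    calc u6 * (u4 * u1) * (u5 * u3) * (u2 * u1 * u3)⁻¹
        = (u6 * u2⁻¹ * (u4 * u5)) * ((u1 * u3) * (u1 * u3)⁻¹) := by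
          rw [mul_assoc u2, mul_inv u2]
          generalize (u1 * u3)⁻¹ = u7
          ac_rfl
      _ = u6 * u2⁻¹ * (u4 * u5) := by rw [mul_inv_cancel, mul_one]
  rw [hval, ptL_mul, ptL_lam, add_zero]

end Pool.Agent.V1143.TD
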