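import Mathlib

/-!
# The Tate module of an abelian group
-/

set_option autoImplicit false

namespace Pool.Agent.V1143.TD

open TensorProduct

universe u v

/-- The sequences `x` with `x 0 = 0` and `p • x (n + 1) = x n` (so `x n` is killed by `p ^ n`). -/
def tateSub (p : ℕ) (M : Type u) [AddCommGroup M] : AddSubgroup (ℕ → M) where
  carrier := {x | x 0 = 0 ∧ ∀ n, p • x (n + 1) = x n}
  zero_mem' := ⟨rfl, fun _ => smul_zero _⟩
  add_mem' {x y} hx hy := ⟨by rw [Pi.add_apply, hx.1, hy.1, add_zero], fun n => by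
    rw [Pi.add_apply, smul_add, hx.2, hy.2, Pi.add_apply]⟩
  neg_mem' {x} hx := ⟨by rw [Pi.neg_apply, hx.1, neg_zero], fun n => by
    rw [Pi.neg_apply, smul_neg, hx.2, Pi.neg_apply]⟩

/-- The `p`-adic Tate module `T_p(M)` of an abelian group `M`: the sequences `x` with `x 0 = 0` and
`p • x (n + 1) = x n` (so `x n` is killed by `p ^ n`). -/
def Tate (p : ℕ) (M : Type u) [AddCommGroup M] : Type u := tateSub p M

noncomputable instance (p : ℕ) (M : Type u) [AddCommGroup M] : AddCommGroup (Tate p M) :=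
  (tateSub p M).toAddCommGroup

namespace Tate

variable {p : ℕ} {M : Type u} [AddCommGroup M] {M' : Type v} [AddCommGroup M']

@[ext]
lemma ext {x y : Tate p M} (h : ∀ n, x.1 n = y.1 n) : x = y := Subtype.ext (funext h)

/-- The element of the Tate module given by a sequence. -/
def mk (x : ℕ → M) (h0 : x 0 = 0) (h : ∀ n, p • x (n + 1) = x n) : Tate p M := ⟨x, h0, h⟩

@[simp] lemma add_apply (x y : Tate p M) (n : ℕ) : (x + y).1 n = x.1 n + y.1 n := rfl

@[simp] lemma zero_apply (n : ℕ) : (0 : Tate p M).1 n = 0 := rfl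

lemma pow_smul (x : Tate p M) (n : ℕ) : (p ^ n : ℕ) • x.1 n = 0 := by
  induction n with
  | zero => rw [pow_zero, one_smul, x.2.1]
  | succ n ih => rw [pow_succ, mul_smul, x.2.2, ih]

lemma zsmul_congr {x : Tate p M} {n : ℕ} {a b : ℤ} (h : ((p ^ n : ℕ) : ℤ) ∣ a - b) :
    a • x.1 n = b • x.1 n := by
  obtain ⟨c, hc⟩ := h
  have h1 : a = b + c * ((p ^ n : ℕ) : ℤ) := by rw [mul_comm, ← hc]; ring
  rw [h1, add_smul, mul_smul, natCast_zsmul, pow_smul, smul_zero, add_zero]

variable [hp : Fact p.Prime]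

lemma dvd_of_mem {n : ℕ} {a b : ℤ} {z : ℤ_[p]}
    (ha : z - a ∈ (Ideal.span {(p : ℤ_[p]) ^ n} : Ideal ℤ_[p]))
    (hb : z - b ∈ (Ideal.span {(p : ℤ_[p]) ^ n} : Ideal ℤ_[p])) :
    ((p ^ n : ℕ) : ℤ) ∣ a - b := by
  have h : ((a - b : ℤ) : ℤ_[p]) ∈ (Ideal.span {(p : ℤ_[p]) ^ n} : Ideal ℤ_[p]) := by
    have := Ideal.sub_mem _ hb ha
    rwa [show z - b - (z - a) = ((a - b : ℤ) : ℤ_[p]) by push_cast; ring] at this
  rw [← PadicInt.norm_le_pow_iff_mem_span_pow, PadicInt.norm_int_le_pow_iff_dvd] at h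
  exact_mod_cast h

lemma appr_step (z : ℤ_[p]) (x : Tate p M) (n : ℕ) :
    p • ((z.appr (n + 1)) • x.1 (n + 1)) = (z.appr n) • x.1 n := by
  rw [smul_comm, x.2.2]
  have h : ((p ^ n : ℕ) : ℤ) ∣ ((z.appr (n + 1) : ℕ) : ℤ) - ((z.appr n : ℕ) : ℤ) := by
    apply dvd_of_mem (z := z)
    · have := z.appr_spec (n + 1)
      have h2 : (Ideal.span {(p : ℤ_[p]) ^ (n + 1)} : Ideal ℤ_[p]) ≤
          Ideal.span {(p : ℤ_[p]) ^ n} := by
        rw [Ideal.span_singleton_le_span_singleton]
        exact pow_dvd_pow _ (Nat.le_succ n)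
      simpa using h2 this
    · simpa using z.appr_spec n
  have := zsmul_congr (x := x) h
  simpa using this

lemma appr_zero (z : ℤ_[p]) (x : Tate p M) : (z.appr 0) • x.1 0 = 0 := by
  rw [x.2.1, smul_zero]

/-- The action of `ℤ_p`: `(z • x) n = a • x n` for an integer `a` congruent to `z` modulo `p ^ n`
(here `a = z.appr n`). -/
noncomputable def act (z : ℤ_[p]) (x : Tate p M) : Tate p M :=
  mk (fun n => (z.appr n) • x.1 n) (appr_zero z x) (appr_step z x)

noncomputable instance : SMul ℤ_[p] (Tate p M) := ⟨act⟩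

lemma smul_apply' (z : ℤ_[p]) (x : Tate p M) (n : ℕ) : (z • x).1 n = (z.appr n) • x.1 n := rfl

/-- `(z • x) n = a • x n` for every integer `a` congruent to `z` modulo `p ^ n`. -/
lemma smul_apply {z : ℤ_[p]} {n : ℕ} {a : ℤ}
    (ha : z - a ∈ (Ideal.span {(p : ℤ_[p]) ^ n} : Ideal ℤ_[p])) (x : Tate p M) :
    (z • x).1 n = a • x.1 n := by
  rw [smul_apply', ← natCast_zsmul]
  exact zsmul_congr (dvd_of_mem (z := z) (by simpa using z.appr_spec n) ha)

lemma mem_appr (z : ℤ_[p]) (n : ℕ) :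
    z - ((z.appr n : ℤ) : ℤ_[p]) ∈ (Ideal.span {(p : ℤ_[p]) ^ n} : Ideal ℤ_[p]) := by
  simpa using z.appr_spec n

lemma one_smul' (x : Tate p M) : (1 : ℤ_[p]) • x = x := by
  ext n
  rw [smul_apply (a := 1) (by simp) x, one_smul]

lemma mul_smul' (z w : ℤ_[p]) (x : Tate p M) : (z * w) • x = z • w • x := by
  ext n
  have h : z * w - ((z.appr n * w.appr n : ℤ) : ℤ_[p]) ∈
      (Ideal.span {(p : ℤ_[p]) ^ n} : Ideal ℤ_[p]) := by
    have h1 := Ideal.mul_mem_left _ z (mem_appr w n)
    have h2 := Ideal.mul_mem_right ((w.appr n : ℤ) : ℤ_[p]) _ (mem_appr z n)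
    have h3 := Ideal.add_mem _ h1 h2
    have h4 : z * (w - ((w.appr n : ℤ) : ℤ_[p])) +
        (z - ((z.appr n : ℤ) : ℤ_[p])) * ((w.appr n : ℤ) : ℤ_[p]) =
        z * w - ((z.appr n * w.appr n : ℤ) : ℤ_[p]) := by push_cast; ring
    rwa [h4] at h3
  rw [smul_apply h x, smul_apply (mem_appr z n), smul_apply (mem_appr w n), mul_smul]

lemma smul_zero' (z : ℤ_[p]) : z • (0 : Tate p M) = 0 := by
  ext n
  rw [smul_apply']
  exact smul_zero _

lemma smul_add' (z : ℤ_[p]) (x y : Tate p M) : z • (x + y) = z • x + z • y := by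
  ext n
  change (z • (x + y)).1 n = (z • x).1 n + (z • y).1 n
  rw [smul_apply', smul_apply', smul_apply']
  exact smul_add _ _ _

lemma add_smul' (z w : ℤ_[p]) (x : Tate p M) : (z + w) • x = z • x + w • x := by
  ext n
  change ((z + w) • x).1 n = (z • x).1 n + (w • x).1 n
  have h : z + w - ((z.appr n + w.appr n : ℤ) : ℤ_[p]) ∈
      (Ideal.span {(p : ℤ_[p]) ^ n} : Ideal ℤ_[p]) := by
    have h3 := Ideal.add_mem _ (mem_appr z n) (mem_appr w n)
    have h4 : z - ((z.appr n : ℤ) : ℤ_[p]) + (w - ((w.appr n : ℤ) : ℤ_[p])) =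
        z + w - ((z.appr n + w.appr n : ℤ) : ℤ_[p]) := by push_cast; ring
    rwa [h4] at h3
  rw [smul_apply h x, smul_apply (mem_appr z n), smul_apply (mem_appr w n), add_smul]

lemma zero_smul' (x : Tate p M) : (0 : ℤ_[p]) • x = 0 := by
  ext n
  rw [smul_apply (a := 0) (by simp) x, zero_smul]
  rfl

noncomputable instance : Module ℤ_[p] (Tate p M) where
  one_smul := one_smul'
  mul_smul := mul_smul'
  smul_zero := smul_zero'
  smul_add := smul_add'
  add_smul := add_smul'
  zero_smul := zero_smul'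

omit hp in
lemma map_zero' (f : M →+ M') (x : Tate p M) : f (x.1 0) = 0 := by
  rw [x.2.1, map_zero]

omit hp in
lemma map_step (f : M →+ M') (x : Tate p M) (n : ℕ) : p • f (x.1 (n + 1)) = f (x.1 n) := by
  rw [← map_nsmul, x.2.2]

omit hp in
/-- The image of an element of the Tate module under a homomorphism of groups. -/
def mapFun (f : M →+ M') (x : Tate p M) : Tate p M' :=
  mk (fun n => f (x.1 n)) (map_zero' f x) (map_step f x)

omit hp in
lemma mapFun_add (f : M →+ M') (x y : Tate p M) : mapFun f (x + y) = mapFun f x + mapFun f y := by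
  ext n
  exact map_add f _ _

lemma mapFun_smul (f : M →+ M') (z : ℤ_[p]) (x : Tate p M) :
    mapFun f (z • x) = z • mapFun f x := by
  ext n
  change f ((z • x).1 n) = (z • mapFun f x).1 n
  rw [smul_apply', smul_apply', map_nsmul]
  rfl

/-- The homomorphism of Tate modules given by a homomorphism of groups. -/
noncomputable def map (p : ℕ) [Fact p.Prime] (f : M →+ M') : Tate p M →ₗ[ℤ_[p]] Tate p M' where
  toFun := mapFun f
  map_add' := mapFun_add f
  map_smul' := mapFun_smul f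

@[simp] lemma map_apply (f : M →+ M') (x : Tate p M) (n : ℕ) : (map p f x).1 n = f (x.1 n) := rfl

lemma map_id : map p (AddMonoidHom.id M) = LinearMap.id := rfl

lemma map_comp {M'' : Type*} [AddCommGroup M''] (g : M' →+ M'') (f : M →+ M') :
    map p (g.comp f) = (map p g).comp (map p f) := rfl

lemma p_smul_apply (x : Tate p M) (n : ℕ) : ((p : ℤ_[p]) • x).1 (n + 1) = x.1 n := by
  rw [smul_apply (a := p) (by simp) x]
  simpa using x.2.2 n

/-- Tate modules are torsion free. -/
lemma eq_zero_of_smul {z : ℤ_[p]} (hz : z ≠ 0) {x : Tate p M} (h : z • x = 0) : x = 0 := by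
  rw [PadicInt.unitCoeff_spec hz] at h
  rw [mul_smul] at h
  have h1 : ((p : ℤ_[p]) ^ z.valuation) • x = 0 := by
    have := congrArg (fun y => ((PadicInt.unitCoeff hz)⁻¹ : ℤ_[p]ˣ) • y) h
    simpa [Units.smul_def, smul_smul] using this
  generalize z.valuation = k at h1
  clear h hz
  induction k with
  | zero => rwa [pow_zero, one_smul] at h1
  | succ k ih =>
    apply ih
    rw [pow_succ', mul_smul] at h1
    ext n
    have h2 := congrArg (fun y : Tate p M => y.1 (n + 1)) h1
    simp only [zero_apply] at h2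
    rw [p_smul_apply] at h2
    exact h2

end Tate

/-- The rational Tate module `V_p(M) = ℚ_p ⊗ T_p(M)`. -/
def RatTate (p : ℕ) [Fact p.Prime] (M : Type u) [AddCommGroup M] : Type u :=
  ℚ_[p] ⊗[ℤ_[p]] Tate p M

noncomputable instance (p : ℕ) [Fact p.Prime] (M : Type u) [AddCommGroup M] :
    AddCommGroup (RatTate p M) := TensorProduct.addCommGroup

noncomputable instance (p : ℕ) [Fact p.Prime] (M : Type u) [AddCommGroup M] :
    Module ℚ_[p] (RatTate p M) := TensorProduct.leftModule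

/-- The map of rational Tate modules given by a homomorphism of groups. -/
noncomputable def RatTate.map (p : ℕ) [Fact p.Prime] {M : Type u} [AddCommGroup M] {M' : Type v}
    [AddCommGroup M'] (f : M →+ M') : RatTate p M →ₗ[ℚ_[p]] RatTate p M' :=
  (Tate.map p f).baseChange ℚ_[p]

namespace RatTate

variable {p : ℕ} [Fact p.Prime] {M : Type u} [AddCommGroup M] {M' : Type v} [AddCommGroup M']

lemma map_comp {M'' : Type*} [AddCommGroup M''] (g : M' →+ M'') (f : M →+ M') :
    map p (g.comp f) = (map p g).comp (map p f) :=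
  LinearMap.baseChange_comp (A := ℚ_[p]) (Tate.map p f) (Tate.map p g)

lemma map_id : map p (AddMonoidHom.id M) = LinearMap.id :=
  LinearMap.baseChange_id (R := ℤ_[p]) (A := ℚ_[p]) (M := Tate p M)

lemma map_zero : map p (0 : M →+ M') = 0 := by
  have : Tate.map p (0 : M →+ M') = 0 := by
    ext x n
    rfl
  have h := LinearMap.baseChange_zero (R := ℤ_[p]) (A := ℚ_[p]) (M := Tate p M) (N := Tate p M')
  rw [← this] at h
  exact h

lemma map_add (f f' : M →+ M') : map p (f + f') = map p f + map p f' := by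
  have : Tate.map p (f + f') = Tate.map p f + Tate.map p f' := by
    ext x n
    rfl
  have h := LinearMap.baseChange_add (A := ℚ_[p]) (Tate.map p f) (Tate.map p f')
  rw [← this] at h
  exact h

end RatTate

/-- The Tate module is contained in the rational Tate module. -/
lemma RatTate.eq_zero {p : ℕ} [Fact p.Prime] {M : Type u} [AddCommGroup M] {x : Tate p M}
    (h : (1 : ℚ_[p]) ⊗ₜ[ℤ_[p]] x = 0) : x = 0 := by
  have h1 : IsLocalizedModule (nonZeroDivisors ℤ_[p])
      (TensorProduct.mk ℤ_[p] ℚ_[p] (Tate p M) 1) := by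
    rw [isLocalizedModule_iff_isBaseChange (nonZeroDivisors ℤ_[p]) ℚ_[p]]
    exact TensorProduct.isBaseChange _ _ _
  obtain ⟨c, hc⟩ := (IsLocalizedModule.eq_zero_iff (nonZeroDivisors ℤ_[p])
    (TensorProduct.mk ℤ_[p] ℚ_[p] (Tate p M) 1)).1 h
  exact Tate.eq_zero_of_smul (nonZeroDivisors.coe_ne_zero c) hc

end Pool.Agent.V1143.TD
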